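import Mathlib
import Pool.Agent.R865.DS.C

set_option autoImplicit false

/-! Subset-sum 1-designs on the nonzero elements of `ℤ/n`, small block sizes. -/

namespace Pool.Agent.Run7.h631.SD
open Finset

/-- number of `j`-subsets of `A` with sum `z` -/
def G {n : ℕ} [NeZero n] (A : Finset (ZMod n)) (j : ℕ) (z : ZMod n) : ℕ :=
  ((A.powersetCard j).filter (fun T => ∑ t ∈ T, t = z)).card

variable {n : ℕ} [NeZero n]

lemma G_zero (A : Finset (ZMod n)) (z : ZMod n) : G A 0 z = if z = 0 then 1 else 0 := by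
  unfold G
  rw [Finset.powersetCard_zero]
  split_ifs with h
  · subst h
    rw [Finset.filter_singleton]
    simp
  · rw [Finset.filter_singleton, if_neg]
    · simp
    · rw [Finset.sum_empty]; exact fun h' => h h'.symm

/-- the blocks containing `a` -/
lemma card_mem (A : Finset (ZMod n)) {a : ZMod n} (ha : a ∉ A) (j : ℕ) (z : ZMod n) :
    (((((insert a A).powersetCard (j + 1)).filter (fun T => ∑ t ∈ T, t = z))).filter
      (fun T => a ∈ T)).card = G A j (z - a) := by
  unfold G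
  apply Finset.card_nbij' (fun T => T.erase a) (fun T => insert a T)
  · intro T hT
    simp only [Finset.coe_filter, Finset.mem_filter, Finset.mem_powersetCard,
      Set.mem_ofPred_eq] at hT ⊢
    obtain ⟨⟨⟨h1, h2⟩, h3⟩, h4⟩ := hT
    refine ⟨⟨?_, ?_⟩, ?_⟩
    · intro t ht
      rw [Finset.mem_erase] at ht
      exact (Finset.mem_insert.1 (h1 ht.2)).resolve_left ht.1
    · rw [Finset.card_erase_of_mem h4, h2, Nat.add_sub_cancel]
    · rw [← h3, ← Finset.add_sum_erase T (fun t => t) h4]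
      ring
  · intro T hT
    simp only [Finset.coe_filter, Finset.mem_filter, Finset.mem_powersetCard,
      Set.mem_ofPred_eq] at hT ⊢
    obtain ⟨⟨h1, h2⟩, h3⟩ := hT
    have haT : a ∉ T := fun h => ha (h1 h)
    refine ⟨⟨⟨Finset.insert_subset_insert a h1, ?_⟩, ?_⟩, Finset.mem_insert_self a T⟩
    · rw [Finset.card_insert_of_notMem haT, h2]
    · rw [Finset.sum_insert haT, h3]
      ring
  · intro T hT
    simp only [Finset.coe_filter, Finset.mem_filter, Set.mem_ofPred_eq] at hT
    exact Finset.insert_erase hT.2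
  · intro T hT
    simp only [Finset.coe_filter, Finset.mem_filter, Finset.mem_powersetCard,
      Set.mem_ofPred_eq] at hT
    exact Finset.erase_insert (fun h => ha (hT.1.1 h))

lemma card_notMem (A : Finset (ZMod n)) {a : ZMod n} (ha : a ∉ A) (j : ℕ) (z : ZMod n) :
    (((((insert a A).powersetCard j).filter (fun T => ∑ t ∈ T, t = z))).filter
      (fun T => ¬ a ∈ T)).card = G A j z := by
  unfold G
  congr 1
  ext T
  simp only [Finset.mem_filter, Finset.mem_powersetCard]
  constructor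
  · rintro ⟨⟨⟨h1, h2⟩, h3⟩, h4⟩
    refine ⟨⟨?_, h2⟩, h3⟩
    intro t ht
    exact (Finset.mem_insert.1 (h1 ht)).resolve_left (fun h => h4 (h ▸ ht))
  · rintro ⟨⟨h1, h2⟩, h3⟩
    exact ⟨⟨⟨h1.trans (Finset.subset_insert a A), h2⟩, h3⟩, fun h => ha (h1 h)⟩

lemma G_insert (A : Finset (ZMod n)) {a : ZMod n} (ha : a ∉ A) (j : ℕ) (z : ZMod n) :
    G (insert a A) (j + 1) z = G A j (z - a) + G A (j + 1) z := by
  rw [← card_mem A ha j z, ← card_notMem A ha (j + 1) z]
  unfold G
  rw [Finset.card_filter_add_card_filter_not]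

/-- all subset sums of the full group are equally frequent for `j` prime to `n` -/
lemma G_univ {j : ℕ} (hj : Nat.Coprime j n) (z z' : ZMod n) :
    G (univ : Finset (ZMod n)) j z = G univ j z' := by
  have key : ∀ z z' : ZMod n, G (univ : Finset (ZMod n)) j z ≤ G univ j z' := by
    intro z z'
    obtain ⟨u, hu⟩ : ∃ u : ZMod n, (j : ZMod n) * u = 1 :=
      ⟨((ZMod.unitOfCoprime j hj)⁻¹ : (ZMod n)ˣ), by
        rw [← ZMod.coe_unitOfCoprime j hj, Units.mul_inv]⟩
    unfold G
    apply Finset.card_le_card_of_injOn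
      (fun T => T.map (Equiv.addRight (u * (z' - z))).toEmbedding)
    · intro T hT
      simp only [Finset.coe_filter, Finset.mem_powersetCard, Set.mem_ofPred_eq] at hT ⊢
      obtain ⟨⟨-, h2⟩, h3⟩ := hT
      refine ⟨⟨Finset.subset_univ _, by rw [Finset.card_map, h2]⟩, ?_⟩
      rw [Finset.sum_map]
      simp only [Equiv.coe_toEmbedding, Equiv.coe_addRight]
      rw [Finset.sum_add_distrib, h3, Finset.sum_const, h2, nsmul_eq_mul, ← mul_assoc, hu]
      ring
    · intro T _ T' _ h
      exact Finset.map_injective _ h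
  exact le_antisymm (key z z') (key z' z)

lemma insert_erase_univ : insert (0 : ZMod n) (univ.erase (0 : ZMod n)) = univ :=
  Finset.insert_erase (Finset.mem_univ _)

/-- the counts for the nonzero elements -/
lemma G_star {p : ℕ} (hp : ∀ j, 1 ≤ j → j < p → Nat.Coprime j n) :
    ∀ j, j < p → ∃ a : ℤ, ∀ z : ZMod n,
      (G (univ.erase (0 : ZMod n)) j z : ℤ) = a + (-1) ^ j * (if z = 0 then 1 else 0) := by
  intro j
  induction j with
  | zero =>
    intro _
    refine ⟨0, fun z => ?_⟩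
    rw [G_zero]
    split_ifs <;> simp
  | succ j ih =>
    intro hj
    obtain ⟨a, ha⟩ := ih (by omega)
    refine ⟨(G (univ : Finset (ZMod n)) (j + 1) 0 : ℤ) - a, fun z => ?_⟩
    have h1 := G_insert (univ.erase (0 : ZMod n)) (Finset.notMem_erase 0 _) j z
    rw [insert_erase_univ, sub_zero, G_univ (hp (j + 1) (by omega) hj) z 0] at h1
    have h2 := ha z
    have h3 : (G (univ : Finset (ZMod n)) (j + 1) 0 : ℤ) =
        G (univ.erase (0 : ZMod n)) j z + G (univ.erase (0 : ZMod n)) (j + 1) z := by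
      exact_mod_cast h1
    rw [pow_succ]
    linarith

/-- the counts for the nonzero elements without `y` -/
lemma G_star_y {p : ℕ} (hp : ∀ j, 1 ≤ j → j < p → Nat.Coprime j n) :
    ∀ j, j < p → ∃ a : ℤ, ∀ y : ZMod n, y ≠ 0 → ∀ z : ZMod n,
      (G ((univ.erase (0 : ZMod n)).erase y) j z : ℤ) =
        a + (-1) ^ j * ∑ i ∈ range (j + 1), (if z = (i : ZMod n) * y then 1 else 0) := by
  intro j
  induction j with
  | zero =>
    intro _
    refine ⟨0, fun y _ z => ?_⟩
    rw [G_zero, Finset.sum_range_one]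
    simp
  | succ j ih =>
    intro hj
    obtain ⟨a, ha⟩ := ih (by omega)
    obtain ⟨b, hb⟩ := G_star hp (j + 1) hj
    refine ⟨b - a, fun y hy z => ?_⟩
    have hy' : y ∈ univ.erase (0 : ZMod n) := Finset.mem_erase.2 ⟨hy, Finset.mem_univ _⟩
    have h1 := G_insert ((univ.erase (0 : ZMod n)).erase y) (Finset.notMem_erase y _) j z
    rw [Finset.insert_erase hy'] at h1
    have h3 : (G (univ.erase (0 : ZMod n)) (j + 1) z : ℤ) =
        G ((univ.erase (0 : ZMod n)).erase y) j (z - y) +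
          G ((univ.erase (0 : ZMod n)).erase y) (j + 1) z := by
      exact_mod_cast h1
    have h4 := ha y hy (z - y)
    have h5 := hb z
    have h6 : ∑ i ∈ range (j + 1 + 1), (if z = (i : ZMod n) * y then (1 : ℤ) else 0) =
        ∑ i ∈ range (j + 1), (if z - y = (i : ZMod n) * y then (1 : ℤ) else 0) +
          (if z = 0 then 1 else 0) := by
      rw [Finset.sum_range_succ']
      congr 1
      · apply Finset.sum_congr rfl
        intro i _
        congr 1
        push_cast
        rw [add_mul, one_mul, sub_eq_iff_eq_add]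
      · simp
    rw [h6, pow_succ]
    rw [pow_succ] at h5
    linarith

/-- `B_k^{x,*}` -/
def Blocks (n k : ℕ) [NeZero n] (x : ZMod n) : Finset (Finset (ZMod n)) :=
  ((univ.erase (0 : ZMod n)).powersetCard k).filter (fun T => ∑ t ∈ T, t = x)

def IsOneDesign (n k : ℕ) [NeZero n] (x : ZMod n) : Prop :=
  (Blocks n k x).Nonempty ∧
    ∃ r : ℕ, ∀ y : ZMod n, y ≠ 0 → ((Blocks n k x).filter (fun T => y ∈ T)).card = r

/-- the number of blocks through `y`, up to a constant -/
lemma deg {p : ℕ} (hp : ∀ j, 1 ≤ j → j < p → Nat.Coprime j n) {k : ℕ} (hk : 1 ≤ k) (hkp : k ≤ p) :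
    ∃ a : ℤ, ∀ x y : ZMod n, y ≠ 0 →
      (((Blocks n k x).filter (fun T => y ∈ T)).card : ℤ) =
        a + (-1) ^ (k - 1) *
          ∑ i ∈ range k, (if x = ((i + 1 : ℕ) : ZMod n) * y then 1 else 0) := by
  obtain ⟨j, rfl⟩ : ∃ j, k = j + 1 := ⟨k - 1, by omega⟩
  obtain ⟨a, ha⟩ := G_star_y hp j (by omega)
  refine ⟨a, fun x y hy => ?_⟩
  have hy' : y ∈ univ.erase (0 : ZMod n) := Finset.mem_erase.2 ⟨hy, Finset.mem_univ _⟩
  have h1 := card_mem ((univ.erase (0 : ZMod n)).erase y) (Finset.notMem_erase y _) j x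
  rw [Finset.insert_erase hy'] at h1
  have h2 : ((Blocks n (j + 1) x).filter (fun T => y ∈ T)).card =
      G ((univ.erase (0 : ZMod n)).erase y) j (x - y) := h1
  rw [h2, ha y hy (x - y), Nat.add_sub_cancel]
  congr 2
  apply Finset.sum_congr rfl
  intro i _
  congr 1
  push_cast
  rw [add_mul, one_mul, sub_eq_iff_eq_add]

lemma sum_univ_odd (hn : Odd n) : ∑ t : ZMod n, t = 0 := by
  have h1 : ∑ t : ZMod n, t = ∑ t : ZMod n, -t := (Equiv.sum_comp (Equiv.neg (ZMod n)) _).symm
  rw [Finset.sum_neg_distrib] at h1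
  have h2 : (2 : ℕ) * (∑ t : ZMod n, t) = 0 := by
    push_cast
    linear_combination h1
  have hc : Nat.Coprime 2 n := (Nat.coprime_two_left).2 hn
  have h3 : IsUnit ((2 : ℕ) : ZMod n) := (ZMod.isUnit_iff_coprime 2 n).2 hc
  exact (h3.mul_right_eq_zero).1 h2

lemma sum_star_odd (hn : Odd n) : ∑ t ∈ univ.erase (0 : ZMod n), t = 0 := by
  have h := Finset.add_sum_erase univ (fun t : ZMod n => t) (Finset.mem_univ (0 : ZMod n))
  rw [zero_add, sum_univ_odd hn] at h
  exact h

lemma card_star : (univ.erase (0 : ZMod n)).card = n - 1 := by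
  rw [Finset.card_erase_of_mem (Finset.mem_univ _), Finset.card_univ, ZMod.card]

lemma compl_mem (hn : Odd n) {k : ℕ} (x : ZMod n) {T : Finset (ZMod n)}
    (hT : T ∈ Blocks n k x) : (univ.erase (0 : ZMod n)) \ T ∈ Blocks n (n - 1 - k) (-x) := by
  unfold Blocks at hT ⊢
  rw [Finset.mem_filter, Finset.mem_powersetCard] at hT ⊢
  obtain ⟨⟨h1, h2⟩, h3⟩ := hT
  refine ⟨⟨Finset.sdiff_subset, ?_⟩, ?_⟩
  · rw [Finset.card_sdiff_of_subset h1, card_star, h2]
  · have h := Finset.sum_sdiff (f := fun t : ZMod n => t) h1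
    rw [sum_star_odd hn, h3] at h
    exact eq_neg_of_add_eq_zero_left h

lemma compl_card (hn : Odd n) {k : ℕ} (hk : k ≤ n - 1) (x y : ZMod n) (hy : y ≠ 0) :
    ((Blocks n (n - 1 - k) (-x)).filter (fun T => y ∈ T)).card =
      ((Blocks n k x).filter (fun T => ¬ y ∈ T)).card := by
  have hsub : ∀ {j : ℕ} {z : ZMod n} {T : Finset (ZMod n)}, T ∈ Blocks n j z →
      T ⊆ univ.erase (0 : ZMod n) := by
    intro j z T hT
    unfold Blocks at hT
    exact (Finset.mem_powersetCard.1 (Finset.mem_filter.1 hT).1).1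
  apply Finset.card_nbij' (fun T => (univ.erase (0 : ZMod n)) \ T)
    (fun T => (univ.erase (0 : ZMod n)) \ T)
  · intro T hT
    simp only [Finset.coe_filter, Set.mem_ofPred_eq] at hT ⊢
    refine ⟨?_, fun h => (Finset.mem_sdiff.1 h).2 hT.2⟩
    have h := compl_mem hn _ hT.1
    rwa [neg_neg, show n - 1 - (n - 1 - k) = k by omega] at h
  · intro T hT
    simp only [Finset.coe_filter, Set.mem_ofPred_eq] at hT ⊢
    exact ⟨compl_mem hn _ hT.1, Finset.mem_sdiff.2 ⟨Finset.mem_erase.2 ⟨hy, Finset.mem_univ _⟩, hT.2⟩⟩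
  · intro T hT
    simp only [Finset.coe_filter, Set.mem_ofPred_eq] at hT
    exact Finset.sdiff_sdiff_eq_self (hsub hT.1)
  · intro T hT
    simp only [Finset.coe_filter, Set.mem_ofPred_eq] at hT
    exact Finset.sdiff_sdiff_eq_self (hsub hT.1)

lemma design_compl (hn : Odd n) {k : ℕ} (hk : k ≤ n - 1) {x : ZMod n} (h : IsOneDesign n k x) :
    IsOneDesign n (n - 1 - k) (-x) := by
  obtain ⟨⟨T, hT⟩, r, hr⟩ := h
  refine ⟨⟨_, compl_mem hn x hT⟩, (Blocks n k x).card - r, fun y hy => ?_⟩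
  rw [compl_card hn hk x y hy, ← hr y hy,
    ← Finset.card_filter_add_card_filter_not (s := Blocks n k x) (fun T => y ∈ T)]
  omega

lemma design_compl_iff (hn : Odd n) {k : ℕ} (hk : k ≤ n - 1) (x : ZMod n) :
    IsOneDesign n k x ↔ IsOneDesign n (n - 1 - k) (-x) := by
  refine ⟨design_compl hn hk, fun h => ?_⟩
  have h2 := design_compl hn (by omega) h
  rwa [neg_neg, show n - 1 - (n - 1 - k) = k by omega] at h2

/-- the middle block size -/
lemma middle (hn : Odd n) (h5 : 5 ≤ n) : IsOneDesign n ((n - 1) / 2) 0 := by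
  obtain ⟨k, hk⟩ := hn
  have hk2 : (n - 1) / 2 = k := by omega
  rw [hk2]
  have hn' : Odd n := ⟨k, hk⟩
  have hkk : n - 1 - k = k := by omega
  refine ⟨?_, (Blocks n k 0).card / 2, fun y hy => ?_⟩
  · obtain ⟨D, hD, hDs⟩ := Pool.Agent.R865.DS.cover (N := n) (κ := k)
      (by rw [hkk]; nlinarith) (by omega) 0
    exact ⟨D, Finset.mem_filter.2 ⟨hD, hDs⟩⟩
  · have h := compl_card hn' (k := k) (by omega) 0 y hy
    rw [hkk, neg_zero] at h
    rw [← Finset.card_filter_add_card_filter_not (s := Blocks n k 0) (fun T => y ∈ T), ← h]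
    omega

lemma coprime_of_lt {j : ℕ} (h1 : 1 ≤ j) (h2 : j < n.minFac) : Nat.Coprime j n := by
  by_contra hc
  have hg : 0 < Nat.gcd j n := Nat.gcd_pos_of_pos_left _ h1
  have hg2 : 2 ≤ Nat.gcd j n := by
    have : Nat.gcd j n ≠ 1 := hc
    omega
  have h3 := Nat.minFac_le_of_dvd hg2 (Nat.gcd_dvd_right j n)
  have h4 := Nat.gcd_le_left n h1
  omega

lemma mul_eq_zero_of {j : ℕ} (hj : Nat.Coprime j n) {y : ZMod n} (h : (j : ZMod n) * y = 0) :
    y = 0 :=
  (((ZMod.isUnit_iff_coprime j n).2 hj).mul_right_eq_zero).1 h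

lemma blocks_one_zero : ¬ (Blocks n 1 (0 : ZMod n)).Nonempty := by
  rintro ⟨T, hT⟩
  unfold Blocks at hT
  rw [Finset.mem_filter, Finset.mem_powersetCard, Finset.card_eq_one] at hT
  obtain ⟨⟨h1, t, rfl⟩, h3⟩ := hT
  rw [Finset.sum_singleton] at h3
  exact Finset.ne_of_mem_erase (h1 (Finset.mem_singleton_self t)) h3

lemma sq_bound (hn : Odd n) (h3 : 3 ≤ n) (hnp : ¬ n.Prime) : 3 * n.minFac ≤ n := by
  have hp : n.minFac.Prime := Nat.minFac_prime (by omega)
  have hp2 : n.minFac ≠ 2 := by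
    intro h
    have := Nat.minFac_dvd n
    rw [h] at this
    obtain ⟨m, hm⟩ := hn
    omega
  have hp3 : 3 ≤ n.minFac := by
    have := hp.two_le
    omega
  have h4 := Nat.minFac_sq_le_self (n := n) (by omega) hnp
  nlinarith

lemma small (hn : Odd n) (h3 : 3 ≤ n) {k : ℕ} (hk : 1 ≤ k) (hkp : k ≤ n.minFac)
    (hkn : k ≤ n - 2) (x : ZMod n) :
    IsOneDesign n k x ↔ x = 0 ∧ 2 ≤ k ∧ k ≠ n - 2 ∧ k ≠ n.minFac := by
  have hcop : ∀ j, 1 ≤ j → j < n.minFac → Nat.Coprime j n := fun j h1 h2 => coprime_of_lt h1 h2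
  have hp : n.minFac.Prime := Nat.minFac_prime (by omega)
  haveI : Fact (1 < n) := ⟨by omega⟩
  obtain ⟨a, ha⟩ := deg (n := n) hcop hk hkp
  constructor
  · rintro ⟨hne, r, hr⟩
    set c : ZMod n → ℤ := fun y =>
      ∑ i ∈ range k, (if x = ((i + 1 : ℕ) : ZMod n) * y then (1 : ℤ) else 0) with hc
    have hcc : ∀ y y' : ZMod n, y ≠ 0 → y' ≠ 0 → c y = c y' := by
      intro y y' hy hy'
      have h1 := ha x y hy
      have h2 := ha x y' hy'
      rw [hr y hy] at h1
      rw [hr y' hy'] at h2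
      have h4 : ((-1 : ℤ) ^ (k - 1)) * c y = (-1) ^ (k - 1) * c y' := by
        simp only [hc]
        linarith
      exact mul_left_cancel₀ (pow_ne_zero _ (by norm_num)) h4
    have hpos : ∀ y : ZMod n, c y ≠ 0 → ∃ i, i < k ∧ x = ((i + 1 : ℕ) : ZMod n) * y := by
      intro y hy
      obtain ⟨i, hi, hi2⟩ := Finset.exists_ne_zero_of_sum_ne_zero hy
      refine ⟨i, Finset.mem_range.1 hi, ?_⟩
      by_contra hcon
      exact hi2 (if_neg hcon)
    have hge : ∀ (y : ZMod n) (i : ℕ), i < k → x = ((i + 1 : ℕ) : ZMod n) * y → c y ≠ 0 := by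
      intro y i hi hxi
      have h5 : (1 : ℤ) ≤ c y := by
        have h6 := Finset.single_le_sum (s := range k)
          (f := fun i : ℕ => (if x = ((i + 1 : ℕ) : ZMod n) * y then (1 : ℤ) else 0))
          (fun i _ => by split_ifs <;> norm_num) (Finset.mem_range.2 hi)
        simp only [if_pos hxi] at h6
        exact h6
      omega
    have hx0 : x = 0 := by
      by_contra hx
      have h1 : c x ≠ 0 := hge x 0 (by omega) (by simp)
      rcases lt_or_ge (2 * k) n with h2k | h2k
      · obtain ⟨i, hi, hi2⟩ := hpos 1 (by rw [hcc 1 x one_ne_zero hx]; exact h1)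
        obtain ⟨j, hj, hj2⟩ := hpos (-1) (by
          rw [hcc (-1) x (neg_ne_zero.2 one_ne_zero) hx]; exact h1)
        have h5 : (((i + 1) + (j + 1) : ℕ) : ZMod n) = 0 := by
          have h6 := hi2.symm.trans hj2
          push_cast at h6 ⊢
          linear_combination h6
        rw [ZMod.natCast_eq_zero_iff] at h5
        have := Nat.le_of_dvd (by omega) h5
        omega
      · have hprime : n.Prime := by
          by_contra hnp
          have := sq_bound hn h3 hnp
          omega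
        have hpn : n.minFac = n := hprime.minFac_eq
        obtain ⟨i, hi, hi2⟩ := hpos (-x) (by rw [hcc (-x) x (neg_ne_zero.2 hx) hx]; exact h1)
        have h5 : ((i + 2 : ℕ) : ZMod n) * x = 0 := by
          push_cast at hi2 ⊢
          linear_combination hi2
        exact hx (mul_eq_zero_of (hcop (i + 2) (by omega) (by omega)) h5)
    subst hx0
    refine ⟨rfl, ?_, ?_, ?_⟩
    · by_contra hlt
      have : k = 1 := by omega
      subst this
      exact blocks_one_zero hne
    · rintro hk2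
      obtain ⟨T, hT⟩ := hne
      have h5 := compl_mem hn _ hT
      rw [neg_zero, show n - 1 - k = 1 by omega] at h5
      exact blocks_one_zero ⟨_, h5⟩
    · intro hkeq
      have hnp : ¬ n.Prime := by
        intro h
        have := h.minFac_eq
        omega
      have hb := sq_bound hn h3 hnp
      have hd : n.minFac * (n / n.minFac) = n := Nat.mul_div_cancel' (Nat.minFac_dvd n)
      have hy0 : ((n / n.minFac : ℕ) : ZMod n) ≠ 0 := by
        intro h
        rw [ZMod.natCast_eq_zero_iff] at h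
        have h6 := Nat.le_of_dvd (Nat.div_pos (Nat.minFac_le (by omega)) hp.pos) h
        have h7 := Nat.div_lt_self (n := n) (by omega) hp.one_lt
        omega
      have h5 := hge ((n / n.minFac : ℕ) : ZMod n) (k - 1) (by omega) (by
        rw [show k - 1 + 1 = n.minFac by omega, ← Nat.cast_mul, hd]
        simp)
      rw [hcc _ 1 hy0 one_ne_zero] at h5
      obtain ⟨i, hi, hi2⟩ := hpos 1 h5
      rw [mul_one] at hi2
      have h8 := (ZMod.natCast_eq_zero_iff _ _).1 hi2.symm
      have := Nat.le_of_dvd (by omega) h8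
      omega
  · rintro ⟨rfl, h2, hk2, hkq⟩
    refine ⟨?_, ?_⟩
    · obtain ⟨m, hm⟩ : ∃ m, n = k + m + 3 := ⟨n - 3 - k, by omega⟩
      obtain ⟨D, hD, hDs⟩ := Pool.Agent.R865.DS.cover (N := n) (κ := k)
        (by
          rw [show n - 1 - k = m + 2 by omega, hm]
          nlinarith) (by omega) 0
      exact ⟨D, Finset.mem_filter.2 ⟨hD, hDs⟩⟩
    · refine ⟨((Blocks n k (0 : ZMod n)).filter (fun T => (1 : ZMod n) ∈ T)).card, fun y hy => ?_⟩
      have hz : ∀ y : ZMod n, y ≠ 0 →
          ∑ i ∈ range k, (if (0 : ZMod n) = ((i + 1 : ℕ) : ZMod n) * y then (1 : ℤ) else 0) = 0 := by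
        intro y hy
        apply Finset.sum_eq_zero
        intro i hi
        rw [Finset.mem_range] at hi
        exact if_neg (fun h => hy (mul_eq_zero_of (hcop (i + 1) (by omega) (by omega)) h.symm))
      have h4 := ha 0 y hy
      have h5 := ha 0 1 one_ne_zero
      rw [hz y hy] at h4
      rw [hz 1 one_ne_zero] at h5
      have h6 : (((Blocks n k (0 : ZMod n)).filter (fun T => y ∈ T)).card : ℤ) =
          ((Blocks n k (0 : ZMod n)).filter (fun T => (1 : ZMod n) ∈ T)).card := by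
        rw [h4, h5]
      exact_mod_cast h6

/-- the full set -/
lemma full (hn : Odd n) (h3 : 3 ≤ n) (x : ZMod n) : IsOneDesign n (n - 1) x ↔ x = 0 := by
  have hB : ∀ T, T ∈ Blocks n (n - 1) x ↔ T = univ.erase (0 : ZMod n) ∧ x = 0 := by
    intro T
    unfold Blocks
    rw [Finset.mem_filter, Finset.mem_powersetCard]
    constructor
    · rintro ⟨⟨h1, h2⟩, h4⟩
      have hT : T = univ.erase (0 : ZMod n) :=
        Finset.eq_of_subset_of_card_le h1 (by rw [card_star, h2])
      exact ⟨hT, by rw [← h4, hT, sum_star_odd hn]⟩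
    · rintro ⟨rfl, rfl⟩
      exact ⟨⟨subset_rfl, card_star⟩, sum_star_odd hn⟩
  constructor
  · rintro ⟨⟨T, hT⟩, -⟩
    exact ((hB T).1 hT).2
  · intro hx
    refine ⟨⟨_, (hB _).2 ⟨rfl, hx⟩⟩, 1, fun y hy => ?_⟩
    rw [Finset.card_eq_one]
    refine ⟨univ.erase (0 : ZMod n), ?_⟩
    ext T
    rw [Finset.mem_filter, hB, Finset.mem_singleton]
    exact ⟨fun h => h.1.1, fun h => ⟨⟨h, hx⟩, by rw [h]; exact Finset.mem_erase.2 ⟨hy, Finset.mem_univ _⟩⟩⟩

theorem both (hn : Odd n) (h3 : 3 ≤ n) {k : ℕ} (hk : 1 ≤ k) (hkn : k ≤ n - 1)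
    (hkp : k ≤ n.minFac ∨ n - 1 - k ≤ n.minFac) (x : ZMod n) :
    IsOneDesign n k x ↔
      x = 0 ∧ 2 ≤ k ∧ k ≠ n - 2 ∧ k ≠ n.minFac ∧ n - 1 - k ≠ n.minFac := by
  have hp : n.minFac.Prime := Nat.minFac_prime (by omega)
  have hpd := Nat.minFac_dvd n
  have hle := Nat.minFac_le (n := n) (by omega)
  have hcase : 3 * n.minFac ≤ n ∨ n.minFac = n := by
    by_cases h : n.Prime
    · exact Or.inr h.minFac_eq
    · exact Or.inl (sq_bound hn h3 h)
  rcases Nat.eq_or_lt_of_le hkn with hkk | hkk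
  · subst hkk
    rw [full hn h3]
    have hne : n - 1 ≠ n.minFac := by
      rcases hcase with h | h <;> omega
    have hp0 := hp.pos
    constructor
    · intro h
      exact ⟨h, by omega, by omega, hne, by omega⟩
    · exact fun h => h.1
  · rcases hkp with h | h
    · rw [small hn h3 hk h (by omega)]
      constructor
      · rintro ⟨h1, h2, h4, h5⟩
        exact ⟨h1, h2, h4, h5, by rcases hcase with h6 | h6 <;> omega⟩
      · rintro ⟨h1, h2, h4, h5, -⟩
        exact ⟨h1, h2, h4, h5⟩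
    · rw [design_compl_iff hn hkn, small hn h3 (by omega) h (by omega), neg_eq_zero]
      constructor
      · rintro ⟨h1, h2, h4, h5⟩
        exact ⟨h1, by omega, by omega, by rcases hcase with h6 | h6 <;> omega, h5⟩
      · rintro ⟨h1, h2, h4, h5, h6⟩
        exact ⟨h1, by omega, by omega, h6⟩

end Pool.Agent.Run7.h631.SD
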