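import Mathlib
import Pool.Agent.Run7.h631.SD.Star

set_option autoImplicit false

/-! Subset-sum 1-designs on the nonzero elements of `ℤ/p²`. -/

namespace Pool.Agent.Run7.h631.SD
open Finset Polynomial

section sq
variable {p n : ℕ} [NeZero n] [hp : Fact p.Prime]

/-- reduction modulo `p` -/
def red (hd : p ∣ n) : ZMod n →+* ZMod p := ZMod.castHom hd (ZMod p)

lemma red_nat (hd : p ∣ n) (m : ℕ) : red hd (m : ZMod n) = (m : ZMod p) := map_natCast _ _

lemma red_zero (hd : p ∣ n) {z : ZMod n} (h : red hd z = 0) :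
    ∃ w : ZMod n, z = (p : ZMod n) * w := by
  have h1 : ((z.val : ℕ) : ZMod p) = 0 := by
    rw [← red_nat hd, ZMod.natCast_zmod_val]
    exact h
  obtain ⟨m, hm⟩ := (ZMod.natCast_eq_zero_iff _ _).1 h1
  refine ⟨(m : ZMod n), ?_⟩
  have h2 := ZMod.natCast_zmod_val z
  rw [hm] at h2
  rw [← h2]
  push_cast
  ring

lemma red_p_mul (hd : p ∣ n) (w : ZMod n) : red hd ((p : ZMod n) * w) = 0 := by
  rw [map_mul, red_nat, ZMod.natCast_self, zero_mul]

lemma isUnit_of_red (hn : n = p ^ 2) (hd : p ∣ n) {z : ZMod n} (h : red hd z ≠ 0) : IsUnit z := by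
  have h2 := ZMod.natCast_zmod_val z
  rw [← h2, ZMod.isUnit_iff_coprime]
  have h3 : ¬ p ∣ z.val := by
    intro hdv
    apply h
    rw [← h2, red_nat, ZMod.natCast_eq_zero_iff]
    exact hdv
  have h4 : Nat.Coprime z.val p := ((Nat.Prime.coprime_iff_not_dvd hp.out).2 h3).symm
  have h5 : Nat.Coprime z.val (p ^ 2) := Nat.Coprime.pow_right 2 h4
  rwa [← hn] at h5

lemma mul_unit_zero (hn : n = p ^ 2) (hd : p ∣ n) {y : ZMod n} (hy : red hd y ≠ 0) (m : ℕ) :
    (m : ZMod n) * y = 0 ↔ n ∣ m := by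
  rw [(isUnit_of_red hn hd hy).mul_left_eq_zero, ZMod.natCast_eq_zero_iff]

lemma red_mul_zero (hd : p ∣ n) {y : ZMod n} (hy : red hd y ≠ 0) (m : ℕ) :
    red hd ((m : ZMod n) * y) = 0 ↔ p ∣ m := by
  rw [map_mul, red_nat, mul_eq_zero, or_iff_left hy, ZMod.natCast_eq_zero_iff]

lemma pp_zero (hn : n = p ^ 2) (w : ZMod n) : (p : ZMod n) * ((p : ZMod n) * w) = 0 := by
  have h : ((p * p : ℕ) : ZMod n) = 0 := by
    rw [ZMod.natCast_eq_zero_iff, hn, sq]
  rw [← mul_assoc, ← Nat.cast_mul, h, zero_mul]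

lemma mul_nonunit_zero (hn : n = p ^ 2) (hd : p ∣ n) {y : ZMod n} (hy0 : y ≠ 0)
    (hy : red hd y = 0) (m : ℕ) : (m : ZMod n) * y = 0 ↔ p ∣ m := by
  obtain ⟨w, rfl⟩ := red_zero hd hy
  have hw : red hd w ≠ 0 := by
    intro h
    obtain ⟨v, rfl⟩ := red_zero hd h
    exact hy0 (pp_zero hn v)
  have h1 : (m : ZMod n) * ((p : ZMod n) * w) = ((m * p : ℕ) : ZMod n) * w := by
    push_cast
    ring
  rw [h1, mul_unit_zero hn hd hw, hn, sq]
  exact Nat.mul_dvd_mul_iff_right hp.out.pos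

omit hp in
lemma G_trans (j : ℕ) (z c : ZMod n) :
    G (univ : Finset (ZMod n)) j z = G univ j (z + (j : ZMod n) * c) := by
  have key : ∀ z c : ZMod n, G (univ : Finset (ZMod n)) j z ≤ G univ j (z + (j : ZMod n) * c) := by
    intro z c
    unfold G
    apply Finset.card_le_card_of_injOn (fun T => T.map (Equiv.addRight c).toEmbedding)
    · intro T hT
      simp only [Finset.coe_filter, Finset.mem_powersetCard, Set.mem_ofPred_eq] at hT ⊢
      obtain ⟨⟨-, h2⟩, h3⟩ := hT
      refine ⟨⟨Finset.subset_univ _, by rw [Finset.card_map, h2]⟩, ?_⟩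
      rw [Finset.sum_map]
      simp only [Equiv.coe_toEmbedding, Equiv.coe_addRight]
      rw [Finset.sum_add_distrib, h3, Finset.sum_const, h2, nsmul_eq_mul]
    · intro T _ T' _ h
      exact Finset.map_injective _ h
  apply le_antisymm (key z c)
  have h := key (z + (j : ZMod n) * c) (-c)
  rwa [mul_neg, add_neg_cancel_right] at h

omit hp in
lemma G_unit (j : ℕ) (u : (ZMod n)ˣ) (z : ZMod n) :
    G (univ : Finset (ZMod n)) j z = G univ j ((u : ZMod n) * z) := by
  have key : ∀ (u : (ZMod n)ˣ) (z : ZMod n),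
      G (univ : Finset (ZMod n)) j z ≤ G univ j ((u : ZMod n) * z) := by
    intro u z
    have hinj : Function.Injective (fun y : ZMod n => (u : ZMod n) * y) :=
      fun a b h => by simpa using h
    unfold G
    apply Finset.card_le_card_of_injOn (fun T => T.map ⟨fun y => (u : ZMod n) * y, hinj⟩)
    · intro T hT
      simp only [Finset.coe_filter, Finset.mem_powersetCard, Set.mem_ofPred_eq] at hT ⊢
      obtain ⟨⟨-, h2⟩, h3⟩ := hT
      refine ⟨⟨Finset.subset_univ _, by rw [Finset.card_map, h2]⟩, ?_⟩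
      rw [Finset.sum_map]
      simp only [Function.Embedding.coeFn_mk]
      rw [← Finset.mul_sum, h3]
    · intro T _ T' _ h
      exact Finset.map_injective _ h
  apply le_antisymm (key u z)
  have h := key u⁻¹ ((u : ZMod n) * z)
  rwa [← mul_assoc, Units.inv_mul, one_mul] at h

lemma U_sq (hn : n = p ^ 2) (hd : p ∣ n) {j : ℕ} (h1 : 1 ≤ j) (hj : j < n) :
    ∃ α β : ℚ, ∀ z : ZMod n, (G (univ : Finset (ZMod n)) j z : ℚ) =
      α + β * (if red hd z = 0 then 1 else 0) := by
  by_cases hpj : p ∣ j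
  · obtain ⟨i, rfl⟩ := hpj
    have hpi : ¬ p ∣ i := by
      rintro ⟨l, rfl⟩
      have hl : 0 < l := by
        rcases Nat.eq_zero_or_pos l with h | h
        · subst h; simp at h1
        · exact h
      rw [hn, ← mul_assoc, sq] at hj
      have := Nat.le_mul_of_pos_right (p * p) hl
      omega
    have hiu : IsUnit ((i : ℕ) : ZMod n) := by
      rw [ZMod.isUnit_iff_coprime]
      have h4 : Nat.Coprime i p := ((Nat.Prime.coprime_iff_not_dvd hp.out).2 hpi).symm
      have h5 : Nat.Coprime i (p ^ 2) := Nat.Coprime.pow_right 2 h4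
      rwa [← hn] at h5
    obtain ⟨u, hu⟩ := hiu
    refine ⟨(G (univ : Finset (ZMod n)) (p * i) 1 : ℚ),
      (G (univ : Finset (ZMod n)) (p * i) 0 : ℚ) - (G (univ : Finset (ZMod n)) (p * i) 1 : ℚ),
      fun z => ?_⟩
    by_cases hz : red hd z = 0
    · rw [if_pos hz]
      obtain ⟨w, rfl⟩ := red_zero hd hz
      have h := G_trans (n := n) (p * i) 0 (w * ((u⁻¹ : (ZMod n)ˣ) : ZMod n))
      have h2 : (0 : ZMod n) + ((p * i : ℕ) : ZMod n) * (w * ((u⁻¹ : (ZMod n)ˣ) : ZMod n)) =
          (p : ZMod n) * w := by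
        push_cast
        rw [← hu]
        have h3 : (u : ZMod n) * ((u⁻¹ : (ZMod n)ˣ) : ZMod n) = 1 := Units.mul_inv u
        linear_combination (p : ZMod n) * w * h3
      rw [h2] at h
      rw [← h]
      ring
    · rw [if_neg hz]
      obtain ⟨v, hv⟩ := isUnit_of_red hn hd hz
      have h := G_unit (n := n) (p * i) v 1
      rw [mul_one, hv] at h
      rw [← h]
      ring
  · have hc : Nat.Coprime j n := by
      have h4 : Nat.Coprime j p := ((Nat.Prime.coprime_iff_not_dvd hp.out).2 hpj).symm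
      have h5 : Nat.Coprime j (p ^ 2) := Nat.Coprime.pow_right 2 h4
      rwa [← hn] at h5
    refine ⟨(G (univ : Finset (ZMod n)) j 0 : ℚ), 0, fun z => ?_⟩
    rw [G_univ hc z 0]
    ring

lemma star_sq (hn : n = p ^ 2) (hd : p ∣ n) :
    ∀ j, j < n → ∃ a B : ℚ, ∀ z : ZMod n,
      (G (univ.erase (0 : ZMod n)) j z : ℚ) =
        a + B * (if red hd z = 0 then 1 else 0) + (-1) ^ j * (if z = 0 then 1 else 0) := by
  intro j
  induction j with
  | zero =>
    intro _
    refine ⟨0, 0, fun z => ?_⟩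
    rw [G_zero]
    by_cases hz : z = 0 <;> simp [hz]
  | succ j ih =>
    intro hj
    obtain ⟨a, B, ha⟩ := ih (by omega)
    obtain ⟨α, β, hU⟩ := U_sq hn hd (j := j + 1) (by omega) hj
    refine ⟨α - a, β - B, fun z => ?_⟩
    have h1 := G_insert (univ.erase (0 : ZMod n)) (Finset.notMem_erase 0 _) j z
    rw [insert_erase_univ, sub_zero] at h1
    have h2 := ha z
    have h4 := hU z
    have h3 : (G (univ : Finset (ZMod n)) (j + 1) z : ℚ) =
        G (univ.erase (0 : ZMod n)) j z + G (univ.erase (0 : ZMod n)) (j + 1) z := by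
      exact_mod_cast h1
    rw [pow_succ]
    linarith

lemma card_fiber (hn : n = p ^ 2) (hd : p ∣ n) :
    (univ.filter (fun z : ZMod n => red hd z = 0)).card = p := by
  have h := Pool.Agent.R865.DS.prod_comp_hom (G := ZMod n) (H := ZMod p) (S := ℕ)
    (red hd).toAddMonoidHom (ZMod.castHom_surjective hd) (fun h => if h = 0 then 2 else 1)
  have h0 : n / p = p := by rw [hn, sq, Nat.mul_div_cancel _ hp.out.pos]
  rw [ZMod.card, ZMod.card, h0] at h
  have h1 : ∏ h : ZMod p, (if h = 0 then 2 else 1 : ℕ) = 2 := by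
    rw [Finset.prod_ite_eq']
    simp
  rw [h1] at h
  rw [Finset.prod_ite, Finset.prod_const, Finset.prod_const_one, mul_one] at h
  exact Nat.pow_right_injective (le_refl 2) h

lemma char_sum (hn : n = p ^ 2) (hodd : Odd p) (hd : p ∣ n) {ζ : ℂ} (hζ : IsPrimitiveRoot ζ p)
    (j : ℕ) :
    ∑ z : ZMod n, (G (univ.erase (0 : ZMod n)) j z : ℂ) * ζ ^ (red hd z).val =
      (-1) ^ (j % p) * ((p - 1).choose (j / p) : ℂ) := by
  have hp0 : 0 < p := hp.out.pos
  set e : AddChar (ZMod p) ℂ := AddChar.zmodChar p hζ.pow_eq_one with he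
  have hev : ∀ a : ZMod p, e a = ζ ^ a.val := fun a => AddChar.zmodChar_apply _ a
  have hP1 : ∏ y : ZMod n, (1 + C (e (red hd y)) * X : ℂ[X]) = (1 + X ^ p) ^ p := by
    have h := Pool.Agent.R865.DS.prod_comp_hom (G := ZMod n) (H := ZMod p) (S := ℂ[X])
      (red hd).toAddMonoidHom (ZMod.castHom_surjective hd) (fun h => 1 + C (e h) * X)
    rw [ZMod.card, ZMod.card] at h
    have h2 : n / p = p := by rw [hn, sq, Nat.mul_div_cancel _ hp0]
    rw [h2] at h
    have h3 : ∏ h : ZMod p, (1 + C (e h) * X : ℂ[X]) = 1 + X ^ p := by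
      have h4 := Pool.Agent.R865.DS.prod_val (q := p) (fun i => (1 + C (ζ ^ i) * X : ℂ[X]))
      rw [Pool.Agent.R865.DS.prod_roots hp0 hζ, hodd.neg_pow, sub_neg_eq_add] at h4
      rw [← h4]
      exact Finset.prod_congr rfl (fun t _ => by rw [hev])
    rw [h3] at h
    exact h
  have hP2 : ∏ y ∈ univ.erase (0 : ZMod n), (1 + C (e (red hd y)) * X : ℂ[X]) =
      (∑ i ∈ range p, (-X) ^ i) * ∏ _d ∈ univ.erase (0 : ZMod p), (1 + C (1 : ℂ) * X ^ p) := by
    have hne : (1 + X : ℂ[X]) ≠ 0 := by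
      rw [add_comm, ← C_1]
      exact (monic_X_add_C (1 : ℂ)).ne_zero
    apply mul_left_cancel₀ hne
    have h5 : (1 + X : ℂ[X]) * ∏ y ∈ univ.erase (0 : ZMod n), (1 + C (e (red hd y)) * X : ℂ[X]) =
        (1 + X ^ p) ^ p := by
      rw [← hP1, ← Finset.mul_prod_erase univ _ (Finset.mem_univ (0 : ZMod n))]
      congr 1
      rw [map_zero, AddChar.map_zero_eq_one, C_1, one_mul]
    have h6 : (1 + X : ℂ[X]) * ∑ i ∈ range p, (-X) ^ i = 1 + X ^ p := by
      have h7 := mul_neg_geom_sum (-X : ℂ[X]) p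
      rw [sub_neg_eq_add, hodd.neg_pow, sub_neg_eq_add] at h7
      exact h7
    rw [h5, ← mul_assoc, h6, Finset.prod_const, C_1, one_mul]
    have h8 : (univ.erase (0 : ZMod p)).card = p - 1 := by
      rw [Finset.card_erase_of_mem (Finset.mem_univ _), Finset.card_univ, ZMod.card]
    rw [h8, ← pow_succ']
    congr 1
    omega
  have h9 := congrArg (fun P => P.coeff j) hP2
  rw [Pool.Agent.R865.DS.coeff_prod_one, Pool.Agent.R865.DS.coeff_prod_q _ _ hp0] at h9
  have h10 : ∑ A ∈ (univ.erase (0 : ZMod p)).powersetCard (j / p), ∏ _y ∈ A, (1 : ℂ) =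
      ((p - 1).choose (j / p) : ℂ) := by
    simp only [Finset.prod_const_one, Finset.sum_const, Finset.card_powersetCard, nsmul_eq_mul,
      mul_one]
    rw [Finset.card_erase_of_mem (Finset.mem_univ _), Finset.card_univ, ZMod.card]
  rw [h10] at h9
  rw [← h9]
  have h11 : ∀ A : Finset (ZMod n), ∏ y ∈ A, e (red hd y) = ζ ^ (red hd (∑ y ∈ A, y)).val := by
    intro A
    rw [← hev, map_sum]
    induction A using Finset.induction_on with
    | empty => rw [Finset.prod_empty, Finset.sum_empty, AddChar.map_zero_eq_one]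
    | insert a s ha ih => rw [Finset.prod_insert ha, Finset.sum_insert ha,
        AddChar.map_add_eq_mul, ih]
  rw [Finset.sum_congr rfl (fun A _ => h11 A),
    ← Finset.sum_fiberwise _ (fun A : Finset (ZMod n) => ∑ y ∈ A, y)]
  refine Finset.sum_congr rfl fun z _ => ?_
  rw [Finset.sum_congr rfl (g := fun _ => ζ ^ (red hd z).val) (fun A hA => by
    rw [(Finset.mem_filter.1 hA).2]), Finset.sum_const, nsmul_eq_mul]
  rfl

/-- `(-1)^Q C(p-1, Q)` -/
def hh (p Q : ℕ) : ℚ := (-1) ^ Q * ((p - 1).choose Q : ℚ)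

/-- the local weight -/
def HH (p m : ℕ) : ℚ := (hh p (m / p) - 1) / p

lemma star_exact (hn : n = p ^ 2) (hodd : Odd p) (hd : p ∣ n) {j : ℕ} (hj : j < n) :
    ∃ a : ℚ, ∀ z : ZMod n, (G (univ.erase (0 : ZMod n)) j z : ℚ) =
        a + (-1) ^ j * ((if z = 0 then 1 else 0) + HH p j * (if red hd z = 0 then 1 else 0)) := by
  have hp0 : 0 < p := hp.out.pos
  obtain ⟨a, B, hB⟩ := star_sq hn hd j hj
  obtain ⟨ζ, hζ⟩ : ∃ ζ : ℂ, IsPrimitiveRoot ζ p :=
    ⟨_, Complex.isPrimitiveRoot_exp p hp0.ne'⟩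
  have h1 := char_sum hn hodd hd hζ j
  have hBc : ∀ z : ZMod n, (G (univ.erase (0 : ZMod n)) j z : ℂ) =
      (a : ℂ) + (B : ℂ) * (if red hd z = 0 then 1 else 0) + (-1) ^ j * (if z = 0 then 1 else 0) := by
    intro z
    have := congrArg (fun q : ℚ => (q : ℂ)) (hB z)
    push_cast at this
    rw [this]
    by_cases h1 : red hd z = 0 <;> by_cases h2 : z = 0 <;> simp [h1, h2]
  have hs0 : ∑ z : ZMod n, ζ ^ (red hd z).val = 0 := by
    set e : AddChar (ZMod p) ℂ := AddChar.zmodChar p hζ.pow_eq_one with he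
    have hev : ∀ a : ZMod p, e a = ζ ^ a.val := fun a => AddChar.zmodChar_apply _ a
    have h2 : ∑ z : ZMod n, ζ ^ (red hd z).val = ∑ z : ZMod n, ζ ^ (red hd (z + 1)).val :=
      (Equiv.sum_comp (Equiv.addRight (1 : ZMod n)) (fun z => ζ ^ (red hd z).val)).symm
    have h3 : ∀ z : ZMod n, ζ ^ (red hd (z + 1)).val = ζ * ζ ^ (red hd z).val := by
      intro z
      rw [← hev, ← hev, map_add, AddChar.map_add_eq_mul, map_one, mul_comm]
      congr 1
      haveI : Fact (1 < p) := ⟨hp.out.one_lt⟩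
      rw [hev, ZMod.val_one, pow_one]
    rw [Finset.sum_congr rfl (fun z _ => h3 z), ← Finset.mul_sum] at h2
    have h4 : (1 - ζ) * ∑ z : ZMod n, ζ ^ (red hd z).val = 0 := by
      linear_combination h2
    rcases mul_eq_zero.1 h4 with h5 | h5
    · exfalso
      exact hζ.ne_one hp.out.one_lt (sub_eq_zero.1 h5).symm
    · exact h5
  have hs1 : ∑ z : ZMod n, (if red hd z = 0 then (1 : ℂ) else 0) * ζ ^ (red hd z).val = p := by
    have : ∀ z : ZMod n, (if red hd z = 0 then (1 : ℂ) else 0) * ζ ^ (red hd z).val =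
        if red hd z = 0 then 1 else 0 := by
      intro z
      by_cases hz : red hd z = 0
      · simp [hz]
      · simp [hz]
    rw [Finset.sum_congr rfl (fun z _ => this z), Finset.sum_boole, card_fiber hn hd]
  have hs2 : ∑ z : ZMod n, (if z = 0 then (1 : ℂ) else 0) * ζ ^ (red hd z).val = 1 := by
    rw [Finset.sum_eq_single (0 : ZMod n)]
    · simp
    · intro z _ hz
      simp [hz]
    · intro h
      exact absurd (Finset.mem_univ _) h
  have h2 : ∑ z : ZMod n, (G (univ.erase (0 : ZMod n)) j z : ℂ) * ζ ^ (red hd z).val =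
      (a : ℂ) * ∑ z : ZMod n, ζ ^ (red hd z).val +
      (B : ℂ) * ∑ z : ZMod n, (if red hd z = 0 then (1 : ℂ) else 0) * ζ ^ (red hd z).val +
      (-1) ^ j * ∑ z : ZMod n, (if z = 0 then (1 : ℂ) else 0) * ζ ^ (red hd z).val := by
    rw [Finset.mul_sum, Finset.mul_sum, Finset.mul_sum, ← Finset.sum_add_distrib,
      ← Finset.sum_add_distrib]
    refine Finset.sum_congr rfl fun z _ => ?_
    rw [hBc z]
    ring
  rw [h2, hs0, hs1, hs2] at h1
  have h3 : B * p + (-1) ^ j = (-1) ^ (j % p) * ((p - 1).choose (j / p) : ℚ) := by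
    have h4 : ((B * p + (-1) ^ j : ℚ) : ℂ) = (((-1) ^ (j % p) * ((p - 1).choose (j / p) : ℚ) : ℚ) : ℂ) := by
      push_cast
      linear_combination h1
    exact_mod_cast h4
  have hpar : ((-1 : ℚ)) ^ (j % p) = (-1) ^ j * (-1) ^ (j / p) := by
    have h5 : j = p * (j / p) + j % p := (Nat.div_add_mod j p).symm
    have h6 : ((-1 : ℚ)) ^ j = (-1) ^ (j / p) * (-1) ^ (j % p) := by
      conv_lhs => rw [h5]
      rw [pow_add, pow_mul, hodd.neg_one_pow]
    rw [h6]
    have h7 : ((-1 : ℚ)) ^ (j / p) * (-1) ^ (j / p) = 1 := by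
      rw [← mul_pow]; norm_num
    linear_combination (-((-1 : ℚ)) ^ (j % p)) * h7
  have hB2 : B = (-1) ^ j * HH p j := by
    unfold HH hh
    have hpq : (p : ℚ) ≠ 0 := by exact_mod_cast hp0.ne'
    have h8 : ((-1 : ℚ)) ^ j * (-1) ^ j = 1 := by
      rw [← mul_pow]; norm_num
    rw [hpar] at h3
    field_simp
    linear_combination h3
  refine ⟨a, fun z => ?_⟩
  rw [hB z, hB2]
  ring

/-- the local function -/
def ff (hd : p ∣ n) (m : ℕ) (w : ZMod n) : ℚ :=
  (if w = 0 then 1 else 0) + HH p m * (if red hd w = 0 then 1 else 0)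

lemma star_y_sq (hn : n = p ^ 2) (hodd : Odd p) (hd : p ∣ n) :
    ∀ j, j < n → ∃ a : ℚ, ∀ y : ZMod n, y ≠ 0 → ∀ z : ZMod n,
      (G ((univ.erase (0 : ZMod n)).erase y) j z : ℚ) =
        a + (-1) ^ j * ∑ i ∈ range (j + 1), ff hd (j - i) (z - (i : ZMod n) * y) := by
  intro j
  induction j with
  | zero =>
    intro _
    refine ⟨0, fun y _ z => ?_⟩
    rw [G_zero, Finset.sum_range_one]
    unfold ff HH hh
    simp
  | succ j ih =>
    intro hj
    obtain ⟨a, ha⟩ := ih (by omega)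
    obtain ⟨b, hb⟩ := star_exact hn hodd hd hj
    refine ⟨b - a, fun y hy z => ?_⟩
    have hy' : y ∈ univ.erase (0 : ZMod n) := Finset.mem_erase.2 ⟨hy, Finset.mem_univ _⟩
    have h1 := G_insert ((univ.erase (0 : ZMod n)).erase y) (Finset.notMem_erase y _) j z
    rw [Finset.insert_erase hy'] at h1
    have h3 : (G (univ.erase (0 : ZMod n)) (j + 1) z : ℚ) =
        G ((univ.erase (0 : ZMod n)).erase y) j (z - y) +
          G ((univ.erase (0 : ZMod n)).erase y) (j + 1) z := by
      exact_mod_cast h1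
    have h4 := ha y hy (z - y)
    have h5 : (G (univ.erase (0 : ZMod n)) (j + 1) z : ℚ) = b + (-1) ^ (j + 1) * ff hd (j + 1) z :=
      hb z
    have h6 : ∑ i ∈ range (j + 1 + 1), ff hd (j + 1 - i) (z - (i : ZMod n) * y) =
        ∑ i ∈ range (j + 1), ff hd (j - i) (z - y - (i : ZMod n) * y) + ff hd (j + 1) z := by
      rw [Finset.sum_range_succ']
      congr 1
      · apply Finset.sum_congr rfl
        intro i _
        rw [Nat.add_sub_add_right]
        congr 1
        push_cast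
        ring
      · simp
    rw [h6, pow_succ]
    rw [pow_succ] at h5
    linarith

/-- the count through `y` -/
def cc (hd : p ∣ n) (k : ℕ) (x y : ZMod n) : ℚ :=
  ∑ i ∈ range k, ff hd (k - 1 - i) (x - ((i + 1 : ℕ) : ZMod n) * y)

lemma deg_sq (hn : n = p ^ 2) (hodd : Odd p) (hd : p ∣ n) {k : ℕ} (hk : 1 ≤ k) (hkn : k ≤ n) :
    ∃ a : ℚ, ∀ x y : ZMod n, y ≠ 0 →
      (((Blocks n k x).filter (fun T => y ∈ T)).card : ℚ) =
        a + (-1) ^ (k - 1) * cc hd k x y := by
  obtain ⟨j, rfl⟩ : ∃ j, k = j + 1 := ⟨k - 1, by omega⟩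
  obtain ⟨a, ha⟩ := star_y_sq hn hodd hd j (by omega)
  refine ⟨a, fun x y hy => ?_⟩
  have hy' : y ∈ univ.erase (0 : ZMod n) := Finset.mem_erase.2 ⟨hy, Finset.mem_univ _⟩
  have h1 := card_mem ((univ.erase (0 : ZMod n)).erase y) (Finset.notMem_erase y _) j x
  rw [Finset.insert_erase hy'] at h1
  have h2 : ((Blocks n (j + 1) x).filter (fun T => y ∈ T)).card =
      G ((univ.erase (0 : ZMod n)).erase y) j (x - y) := h1
  rw [h2, ha y hy (x - y)]
  unfold cc
  rw [Nat.add_sub_cancel]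
  congr 2
  apply Finset.sum_congr rfl
  intro i _
  congr 1
  push_cast
  ring

/-- 1-design iff the counts agree -/
lemma design_iff_cc (hn : n = p ^ 2) (hodd : Odd p) (hd : p ∣ n) {k : ℕ} (hk : 1 ≤ k)
    (hkn : k ≤ n) (x : ZMod n) (h1n : (1 : ZMod n) ≠ 0) :
    (∃ r : ℕ, ∀ y : ZMod n, y ≠ 0 → ((Blocks n k x).filter (fun T => y ∈ T)).card = r) ↔
      ∀ y y' : ZMod n, y ≠ 0 → y' ≠ 0 → cc hd k x y = cc hd k x y' := by
  obtain ⟨a, ha⟩ := deg_sq hn hodd hd hk hkn
  constructor
  · rintro ⟨r, hr⟩ y y' hy hy'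
    have h1 := ha x y hy
    have h2 := ha x y' hy'
    rw [hr y hy] at h1
    rw [hr y' hy'] at h2
    have h4 : ((-1 : ℚ) ^ (k - 1)) * cc hd k x y = (-1) ^ (k - 1) * cc hd k x y' := by
      linarith
    exact mul_left_cancel₀ (pow_ne_zero _ (by norm_num)) h4
  · intro h
    refine ⟨((Blocks n k x).filter (fun T => (1 : ZMod n) ∈ T)).card, fun y hy => ?_⟩
    have h1 := ha x y hy
    have h2 := ha x 1 h1n
    rw [h y 1 hy h1n, ← h2] at h1
    exact_mod_cast h1

omit [NeZero n] hp in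
lemma sum_multiples (hp0 : 0 < p) (g : ℕ → ℚ) (k : ℕ) :
    ∑ i ∈ range k, (if p ∣ i + 1 then g i else 0) =
      ∑ t ∈ range (k / p), g (p * (t + 1) - 1) := by
  induction k with
  | zero => simp
  | succ k ih =>
    rw [Finset.sum_range_succ, ih, Nat.succ_div]
    by_cases h : p ∣ k + 1
    · rw [if_pos h, if_pos h, Finset.sum_range_succ]
      congr 2
      obtain ⟨c, hc⟩ := h
      have hc0 : 0 < c := by
        rcases Nat.eq_zero_or_pos c with h | h
        · subst h; simp at hc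
        · exact h
      have h1 : k / p = c - 1 := by
        obtain ⟨d, rfl⟩ : ∃ d, c = d + 1 := ⟨c - 1, by omega⟩
        have h2 : k = p * d + (p - 1) := by
          have : p * (d + 1) = p * d + p := by ring
          omega
        rw [h2, Nat.mul_add_div hp0, Nat.div_eq_of_lt (by omega)]
        omega
      rw [h1, Nat.sub_add_cancel hc0, ← hc, Nat.add_sub_cancel]
    · rw [if_neg h, if_neg h, add_zero, add_zero]

omit [NeZero n] hp in
lemma sum_div (hp0 : 0 < p) (g : ℕ → ℚ) (k : ℕ) :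
    ∑ i ∈ range k, g (i / p) =
      p * ∑ Q ∈ range (k / p), g Q + (k % p : ℕ) * g (k / p) := by
  induction k with
  | zero => simp
  | succ k ih =>
    rw [Finset.sum_range_succ, ih, Nat.succ_div]
    by_cases h : p ∣ k + 1
    · rw [if_pos h, Finset.sum_range_succ]
      have h1 : (k + 1) % p = 0 := Nat.mod_eq_zero_of_dvd h
      have h2 : k % p = p - 1 := by
        obtain ⟨c, hc⟩ := h
        have hc0 : 0 < c := by
          rcases Nat.eq_zero_or_pos c with h | h
          · subst h; simp at hc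
          · exact h
        obtain ⟨d, rfl⟩ : ∃ d, c = d + 1 := ⟨c - 1, by omega⟩
        have h2 : k = p * d + (p - 1) := by
          have : p * (d + 1) = p * d + p := by ring
          omega
        rw [h2, Nat.mul_add_mod, Nat.mod_eq_of_lt (by omega)]
      rw [h1, h2, Nat.cast_sub hp0]
      push_cast
      ring
    · rw [if_neg h, add_zero]
      have h2 : (k + 1) % p = k % p + 1 := by
        have h3 := Nat.mod_lt k hp0
        have h4 : k % p + 1 ≠ p := by
          intro h5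
          apply h
          have h6 := Nat.div_add_mod k p
          exact ⟨k / p + 1, by rw [Nat.mul_add, Nat.mul_one]; omega⟩
        rw [Nat.add_mod, Nat.mod_eq_of_lt (a := 1) (by omega), Nat.mod_eq_of_lt (by omega)]
      rw [h2]
      push_cast
      ring

omit [NeZero n] hp in
lemma alt_sum (q : ℕ) (hq : q ≤ p - 1) :
    ((p - 1 : ℕ) : ℚ) * ∑ Q ∈ range q, hh p Q = - (q * hh p q) := by
  induction q with
  | zero => simp
  | succ q ih =>
    rw [Finset.sum_range_succ, mul_add, ih (by omega)]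
    unfold hh
    have h := Nat.choose_succ_right_eq (p - 1) q
    have h2 : (((p - 1).choose (q + 1) * (q + 1) : ℕ) : ℚ) =
        (((p - 1).choose q * (p - 1 - q) : ℕ) : ℚ) := by rw [h]
    rw [Nat.cast_mul, Nat.cast_mul, Nat.cast_sub (show q ≤ p - 1 by omega)] at h2
    push_cast at h2 ⊢
    rw [pow_succ]
    linear_combination (-((-1 : ℚ) ^ q)) * h2

/-- the two values for `x = 0` -/
lemma cc_unit (hn : n = p ^ 2) (hd : p ∣ n) {k : ℕ} (hkn : k < n) {y : ZMod n}
    (hy : red hd y ≠ 0) :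
    cc hd k 0 y = ∑ Q ∈ range (k / p), (hh p Q - 1) / p := by
  have hp0 : 0 < p := hp.out.pos
  unfold cc
  have h1 : ∀ i ∈ range k, ff hd (k - 1 - i) (0 - ((i + 1 : ℕ) : ZMod n) * y) =
      if p ∣ i + 1 then HH p (k - 1 - i) else 0 := by
    intro i hi
    rw [Finset.mem_range] at hi
    unfold ff
    have h2 : (0 - ((i + 1 : ℕ) : ZMod n) * y = 0) ↔ n ∣ i + 1 := by
      rw [zero_sub, neg_eq_zero, mul_unit_zero hn hd hy]
    have h3 : ¬ n ∣ i + 1 := fun h => by
      have := Nat.le_of_dvd (by omega) h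
      omega
    have h4 : (red hd (0 - ((i + 1 : ℕ) : ZMod n) * y) = 0) ↔ p ∣ i + 1 := by
      rw [zero_sub, map_neg, neg_eq_zero, red_mul_zero hd hy]
    rw [if_neg (by rw [h2]; exact h3), zero_add]
    by_cases h : p ∣ i + 1
    · rw [if_pos (h4.2 h), if_pos h, mul_one]
    · rw [if_neg (by rw [h4]; exact h), if_neg h, mul_zero]
  rw [Finset.sum_congr rfl h1, sum_multiples hp0, ← Finset.sum_range_reflect]
  apply Finset.sum_congr rfl
  intro t ht
  rw [Finset.mem_range] at ht
  unfold HH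
  congr 3
  have h5 : p * (k / p) ≤ k := Nat.mul_div_le k p
  obtain ⟨s, hs⟩ : ∃ s, k / p = t + s + 1 := ⟨k / p - t - 1, by omega⟩
  have h6 : k / p - 1 - t = s := by omega
  rw [h6]
  have h7 : k = p * (t + s + 1) + k % p := by
    rw [← hs]
    exact (Nat.div_add_mod k p).symm
  have h8 : p * (t + s + 1) = p * t + p * (s + 1) := by ring
  have h9 : 0 < p * (s + 1) := Nat.mul_pos hp0 (by omega)
  have h10 : k - 1 - (p * (s + 1) - 1) = p * t + k % p := by omega
  rw [h10, Nat.mul_add_div hp0, Nat.div_eq_of_lt (Nat.mod_lt k hp0), add_zero]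

lemma cc_nonunit (hn : n = p ^ 2) (hd : p ∣ n) {k : ℕ} {y : ZMod n} (hy0 : y ≠ 0)
    (hy : red hd y = 0) :
    cc hd k 0 y = (k / p : ℕ) + (p * ∑ Q ∈ range (k / p), (hh p Q - 1) / p +
      (k % p : ℕ) * ((hh p (k / p) - 1) / p)) := by
  have hp0 : 0 < p := hp.out.pos
  unfold cc
  have h1 : ∀ i ∈ range k, ff hd (k - 1 - i) (0 - ((i + 1 : ℕ) : ZMod n) * y) =
      (if p ∣ i + 1 then 1 else 0) + (hh p ((k - 1 - i) / p) - 1) / p := by
    intro i hi
    unfold ff
    have h2 : (0 - ((i + 1 : ℕ) : ZMod n) * y = 0) ↔ p ∣ i + 1 := by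
      rw [zero_sub, neg_eq_zero, mul_nonunit_zero hn hd hy0 hy]
    have h4 : red hd (0 - ((i + 1 : ℕ) : ZMod n) * y) = 0 := by
      rw [zero_sub, map_neg, map_mul, hy, mul_zero, neg_zero]
    rw [if_pos h4, mul_one]
    congr 1
    by_cases h : p ∣ i + 1
    · rw [if_pos (h2.2 h), if_pos h]
    · rw [if_neg (by rw [h2]; exact h), if_neg h]
  rw [Finset.sum_congr rfl h1, Finset.sum_add_distrib, sum_multiples hp0 (fun _ => 1),
    Finset.sum_range_reflect (fun m => (hh p (m / p) - 1) / (p : ℚ)) k,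
    sum_div hp0 (fun Q => (hh p Q - 1) / (p : ℚ))]
  simp

lemma hh_ne_one {q : ℕ} (h1 : 1 ≤ q) (h2 : q + 2 ≤ p) (h3 : 3 ≤ p) : hh p q ≠ 1 := by
  unfold hh
  have h4 : 2 ≤ (p - 1).choose q := by
    obtain ⟨m, hm⟩ : ∃ m, p - 1 = m + 1 := ⟨p - 2, by omega⟩
    obtain ⟨l, rfl⟩ : ∃ l, q = l + 1 := ⟨q - 1, by omega⟩
    rw [hm, Nat.choose_succ_succ']
    have h6 : 0 < m.choose l := Nat.choose_pos (by omega)
    have h7 : 0 < m.choose (l + 1) := Nat.choose_pos (by omega)
    omega
  have h8 : (2 : ℚ) ≤ ((p - 1).choose q : ℚ) := by exact_mod_cast h4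
  rcases neg_one_pow_eq_or ℚ q with h | h <;> rw [h] <;> intro h9 <;> linarith

lemma sum_reduce (p : ℕ) (hp0 : (p : ℚ) ≠ 0) (q : ℕ) :
    ∑ Q ∈ range q, (hh p Q - 1) / (p : ℚ) = (∑ Q ∈ range q, hh p Q - q) / p := by
  rw [← Finset.sum_div, Finset.sum_sub_distrib]
  simp

lemma mid_zero (hn : n = p ^ 2) (hodd : Odd p) (hd : p ∣ n) {k : ℕ} (hk1 : p < k)
    (hk2 : p < n - 1 - k) : IsOneDesign n k (0 : ZMod n) ↔ (p + 1) ∣ k := by
  have hp0 : 0 < p := hp.out.pos
  have hp2 := hp.out.two_le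
  have hp3 : 3 ≤ p := by
    obtain ⟨m, hm⟩ := hodd
    omega
  have hnn : n = p * p := by rw [hn, sq]
  have hn9 : 3 * p ≤ n := by rw [hnn]; exact Nat.mul_le_mul_right p hp3
  haveI : Fact (1 < n) := ⟨by omega⟩
  have hkn : k < n := by omega
  have hq : k / p < p := (Nat.div_lt_iff_lt_mul hp0).2 (by omega)
  have hqr := Nat.div_add_mod k p
  have hr := Nat.mod_lt k hp0
  have hq1 : 1 ≤ k / p := (Nat.one_le_div_iff hp0).2 hk1.le
  have hq2 : k / p + 2 ≤ p := by
    have h1 : k / p < p - 1 := by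
      rw [Nat.div_lt_iff_lt_mul hp0, Nat.sub_mul, one_mul]
      omega
    omega
  have hpq : (p : ℚ) ≠ 0 := by exact_mod_cast hp0.ne'
  have h1u : red hd (1 : ZMod n) ≠ 0 := by
    rw [map_one]
    exact one_ne_zero
  have hpn0 : (p : ZMod n) ≠ 0 := by
    intro h
    rw [ZMod.natCast_eq_zero_iff] at h
    have := Nat.le_of_dvd hp0 h
    omega
  have hpr : red hd (p : ZMod n) = 0 := by
    rw [red_nat, ZMod.natCast_self]
  have hS := alt_sum (p := p) (k / p) (by omega)
  rw [Nat.cast_sub hp0, Nat.cast_one] at hS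
  unfold IsOneDesign
  rw [design_iff_cc hn hodd hd (by omega) hkn.le 0 one_ne_zero]
  constructor
  · rintro ⟨-, h⟩
    have h1 := h 1 p one_ne_zero hpn0
    rw [cc_unit hn hd hkn h1u, cc_nonunit hn hd hpn0 hpr, sum_reduce p hpq] at h1
    have h2 : ((k % p : ℕ) - (k / p : ℕ) : ℚ) * (hh p (k / p) - 1) = 0 := by
      field_simp at h1
      linear_combination (-1 : ℚ) * h1 - hS
    rcases mul_eq_zero.1 h2 with h3 | h3
    · have h4 : k % p = k / p := by
        have := sub_eq_zero.1 h3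
        exact_mod_cast this
      refine ⟨k / p, ?_⟩
      rw [h4] at hqr
      rw [add_mul, one_mul]
      exact hqr.symm
    · exact absurd (sub_eq_zero.1 h3) (hh_ne_one hq1 hq2 hp3)
  · intro hdv
    have heq : k % p = k / p := by
      obtain ⟨c, hc⟩ := hdv
      have hcp : c < p := by
        by_contra hcon
        have h5 : (p + 1) * p ≤ (p + 1) * c := Nat.mul_le_mul_left _ (by omega)
        have h6 : (p + 1) * p = p * p + p := by ring
        omega
      have h7 : k = p * c + c := by rw [hc]; ring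
      rw [h7, Nat.mul_add_mod, Nat.mod_eq_of_lt hcp, Nat.mul_add_div hp0, Nat.div_eq_of_lt hcp,
        add_zero]
    refine ⟨?_, ?_⟩
    · obtain ⟨m, hm⟩ : ∃ m, n = k + m + 3 := ⟨n - 3 - k, by omega⟩
      obtain ⟨D, hD, hDs⟩ := Pool.Agent.R865.DS.cover (N := n) (κ := k)
        (by
          rw [show n - 1 - k = m + 2 by omega]
          conv_lhs => rw [hm]
          nlinarith) (by omega) 0
      exact ⟨D, Finset.mem_filter.2 ⟨hD, hDs⟩⟩
    · have hV : ∀ y : ZMod n, y ≠ 0 →
          cc hd k 0 y = ∑ Q ∈ range (k / p), (hh p Q - 1) / p := by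
        intro y hy
        by_cases hyr : red hd y = 0
        · rw [cc_nonunit hn hd hy hyr, sum_reduce p hpq, heq]
          field_simp
          linear_combination hS
        · exact cc_unit hn hd hkn hyr
      intro y y' hy hy'
      rw [hV y hy, hV y' hy']

lemma mid_ne (hn : n = p ^ 2) (hodd : Odd p) (hd : p ∣ n) {k : ℕ} (hk1 : p < k)
    (hk2 : p < n - 1 - k) {x : ZMod n} (hx : x ≠ 0) : ¬ IsOneDesign n k x := by
  have hp0 : 0 < p := hp.out.pos
  have hp2 := hp.out.two_le
  have hp3 : 3 ≤ p := by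
    obtain ⟨m, hm⟩ := hodd
    omega
  have hnn : n = p * p := by rw [hn, sq]
  have hn9 : 3 * p ≤ n := by rw [hnn]; exact Nat.mul_le_mul_right p hp3
  haveI : Fact (1 < n) := ⟨by omega⟩
  have hkn : k < n := by omega
  rintro ⟨-, hr⟩
  rw [design_iff_cc hn hodd hd (by omega) hkn.le x one_ne_zero] at hr
  by_cases hxr : red hd x = 0
  · obtain ⟨w, rfl⟩ := red_zero hd hxr
    have hw : red hd w ≠ 0 := by
      intro h
      obtain ⟨v, rfl⟩ := red_zero hd h
      exact hx (pp_zero hn v)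
    have hw0 : w ≠ 0 := fun h => hw (by rw [h, map_zero])
    have h1 := hr w (-w) hw0 (neg_ne_zero.2 hw0)
    have hterm : ∀ i ∈ range k,
        ff hd (k - 1 - i) ((p : ZMod n) * w - ((i + 1 : ℕ) : ZMod n) * w) =
        ff hd (k - 1 - i) ((p : ZMod n) * w - ((i + 1 : ℕ) : ZMod n) * (-w)) +
          (if i = p - 1 then 1 else 0) := by
      intro i hi
      rw [Finset.mem_range] at hi
      unfold ff
      have e2 : (p : ZMod n) * w - ((i + 1 : ℕ) : ZMod n) * (-w) =
          ((p + (i + 1) : ℕ) : ZMod n) * w := by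
        push_cast
        ring
      have a1 : ((p : ZMod n) * w - ((i + 1 : ℕ) : ZMod n) * w = 0) ↔ i = p - 1 := by
        rw [← sub_mul, (isUnit_of_red hn hd hw).mul_left_eq_zero, sub_eq_zero,
          ZMod.natCast_eq_natCast_iff, Nat.ModEq, Nat.mod_eq_of_lt (by omega),
          Nat.mod_eq_of_lt (by omega)]
        omega
      have a2 : ¬ (((p + (i + 1) : ℕ) : ZMod n) * w = 0) := by
        rw [mul_unit_zero hn hd hw]
        intro h
        have := Nat.le_of_dvd (by omega) h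
        omega
      have a3 : (red hd ((p : ZMod n) * w - ((i + 1 : ℕ) : ZMod n) * w) = 0) ↔ p ∣ i + 1 := by
        rw [map_sub, red_p_mul, zero_sub, neg_eq_zero, red_mul_zero hd hw]
      have a4 : (red hd (((p + (i + 1) : ℕ) : ZMod n) * w) = 0) ↔ p ∣ i + 1 := by
        rw [red_mul_zero hd hw, Nat.dvd_add_right (dvd_refl p)]
      rw [e2, if_neg a2]
      simp only [a1, a3, a4]
      ring
    unfold cc at h1
    rw [Finset.sum_congr rfl hterm, Finset.sum_add_distrib, Finset.sum_ite_eq',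
      if_pos (Finset.mem_range.2 (by omega))] at h1
    linarith
  · have hx2 : (1 + (p : ZMod n)) * x ≠ 0 := by
      have : (1 + (p : ZMod n)) * x = ((1 + p : ℕ) : ZMod n) * x := by push_cast; ring
      rw [this, Ne, mul_unit_zero hn hd hxr]
      intro h
      have := Nat.le_of_dvd (by omega) h
      omega
    have h1 := hr x ((1 + (p : ZMod n)) * x) hx hx2
    have hterm : ∀ i ∈ range k,
        ff hd (k - 1 - i) (x - ((i + 1 : ℕ) : ZMod n) * x) =
        ff hd (k - 1 - i) (x - ((i + 1 : ℕ) : ZMod n) * ((1 + (p : ZMod n)) * x)) +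
          (if i = 0 then 1 else 0) := by
      intro i hi
      rw [Finset.mem_range] at hi
      unfold ff
      have e1 : x - ((i + 1 : ℕ) : ZMod n) * x = -(((i : ℕ) : ZMod n) * x) := by
        push_cast
        ring
      have e2 : x - ((i + 1 : ℕ) : ZMod n) * ((1 + (p : ZMod n)) * x) =
          -(((i + p * (i + 1) : ℕ) : ZMod n) * x) := by
        push_cast
        ring
      have a1 : (-(((i : ℕ) : ZMod n) * x) = 0) ↔ i = 0 := by
        rw [neg_eq_zero, mul_unit_zero hn hd hxr]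
        constructor
        · intro h
          by_contra hne
          have := Nat.le_of_dvd (Nat.pos_of_ne_zero hne) h
          omega
        · rintro rfl
          exact dvd_zero n
      have a2 : ¬ (-(((i + p * (i + 1) : ℕ) : ZMod n) * x) = 0) := by
        rw [neg_eq_zero, mul_unit_zero hn hd hxr, hnn]
        intro h
        have h2 : p ∣ i := by
          have h3 : p ∣ i + p * (i + 1) := (Dvd.intro _ rfl : p ∣ p * p).trans h
          exact (Nat.dvd_add_left (Dvd.intro _ rfl)).1 h3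
        obtain ⟨l, rfl⟩ := h2
        have h4 : p * l + p * (p * l + 1) = p * (l + 1 + p * l) := by ring
        rw [h4] at h
        have h5 := Nat.dvd_of_mul_dvd_mul_left hp0 h
        have h6 : p ∣ l + 1 := (Nat.dvd_add_left (Dvd.intro _ rfl)).1 h5
        have h7 := Nat.le_of_dvd (by omega) h6
        have h8 : p * (p - 1) ≤ p * l := Nat.mul_le_mul_left p (by omega)
        rw [Nat.mul_sub, mul_one] at h8
        omega
      have a3 : (red hd (-(((i : ℕ) : ZMod n) * x)) = 0) ↔ p ∣ i := by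
        rw [map_neg, neg_eq_zero, red_mul_zero hd hxr]
      have a4 : (red hd (-(((i + p * (i + 1) : ℕ) : ZMod n) * x)) = 0) ↔ p ∣ i := by
        rw [map_neg, neg_eq_zero, red_mul_zero hd hxr, Nat.dvd_add_left (Dvd.intro _ rfl)]
      rw [e1, e2, if_neg a2]
      simp only [a1, a3, a4]
      ring
    unfold cc at h1
    rw [Finset.sum_congr rfl hterm, Finset.sum_add_distrib, Finset.sum_ite_eq',
      if_pos (Finset.mem_range.2 (by omega))] at h1
    linarith

/-- the classification for `n = p²` -/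
theorem square (hn : n = p ^ 2) (hodd : Odd p) {k : ℕ} (hk : 1 ≤ k) (hkn : k ≤ n - 1)
    (x : ZMod n) :
    IsOneDesign n k x ↔
      x = 0 ∧ 2 ≤ k ∧ k ≠ n - 2 ∧ (k < p ∨ n - 1 - k < p ∨ (p + 1) ∣ k) := by
  have hp0 : 0 < p := hp.out.pos
  have hp2 := hp.out.two_le
  have hp3 : 3 ≤ p := by
    obtain ⟨m, hm⟩ := hodd
    omega
  have hnn : n = p * p := by rw [hn, sq]
  have hn9 : 3 * p ≤ n := by rw [hnn]; exact Nat.mul_le_mul_right p hp3
  have hd : p ∣ n := ⟨p, hnn⟩
  have hon : Odd n := by rw [hn]; exact hodd.pow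
  have hmf : n.minFac = p := by
    rw [hn, Nat.Prime.pow_minFac hp.out (by norm_num)]
  rcases le_or_gt k p with h1 | h1
  · rw [both hon (by omega) hk hkn (by rw [hmf]; exact Or.inl h1), hmf]
    constructor
    · rintro ⟨h2, h3, h4, h5, h6⟩
      exact ⟨h2, h3, h4, Or.inl (by omega)⟩
    · rintro ⟨h2, h3, h4, h5 | h5 | h5⟩
      · exact ⟨h2, h3, h4, by omega, by omega⟩
      · exact ⟨h2, h3, h4, by omega, by omega⟩
      · have := Nat.le_of_dvd (by omega) h5
        omega
  · rcases le_or_gt (n - 1 - k) p with h2 | h2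
    · rw [both hon (by omega) hk hkn (by rw [hmf]; exact Or.inr h2), hmf]
      constructor
      · rintro ⟨h3, h4, h5, h6, h7⟩
        exact ⟨h3, h4, h5, Or.inr (Or.inl (by omega))⟩
      · rintro ⟨h3, h4, h5, h6 | h6 | h6⟩
        · omega
        · exact ⟨h3, h4, h5, by omega, by omega⟩
        · refine ⟨h3, h4, h5, by omega, ?_⟩
          intro h7
          have h8 : (p + 1) ∣ k + p := by
            have h9 : k + p = (p + 1) * (p - 1) := by
              obtain ⟨m, rfl⟩ : ∃ m, p = m + 1 := ⟨p - 1, by omega⟩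
              have h10 : (m + 1) * (m + 1) = (m + 1 + 1) * m + 1 := by ring
              rw [Nat.add_sub_cancel]
              omega
            exact ⟨_, h9⟩
          have h11 := (Nat.dvd_add_right h6).1 h8
          have := Nat.le_of_dvd hp0 h11
          omega
    · by_cases hx : x = 0
      · subst hx
        rw [mid_zero hn hodd hd h1 h2]
        constructor
        · intro h3
          exact ⟨rfl, by omega, by omega, Or.inr (Or.inr h3)⟩
        · rintro ⟨-, -, -, h3 | h3 | h3⟩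
          · omega
          · omega
          · exact h3
      · constructor
        · intro h3
          exact absurd h3 (mid_ne hn hodd hd h1 h2 hx)
        · intro h3
          exact absurd h3.1 hx

end sq

end Pool.Agent.Run7.h631.SD
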