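import Mathlib
import Pool.Agent.Run7.h631.SD.Sq

set_option autoImplicit false

/-! Block sizes up to the largest prime power component: comparison of two points. -/

namespace Pool.Agent.Run7.h631.SD
open Finset

variable {n : ℕ} [NeZero n]

lemma G_per {j L : ℕ} (hL : Nat.gcd j n ∣ L) (z t : ZMod n) :
    G (univ : Finset (ZMod n)) j (z + (L : ZMod n) * t) = G univ j z := by
  obtain ⟨l, rfl⟩ := hL
  have h : ((Nat.gcd j n : ℕ) : ZMod n) = (j : ZMod n) * ((Nat.gcdA j n : ℤ) : ZMod n) := by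
    have h1 := Nat.gcd_eq_gcd_ab j n
    have h2 := congrArg (fun q : ℤ => (q : ZMod n)) h1
    push_cast at h2
    rw [ZMod.natCast_self, zero_mul, add_zero] at h2
    exact h2
  rw [G_trans j z (((Nat.gcdA j n : ℤ) : ZMod n) * (l : ZMod n) * t)]
  congr 1
  push_cast
  rw [h]
  ring

lemma star_per {L k : ℕ} (hL : ∀ i, 1 ≤ i → i < k → Nat.gcd i n ∣ L) :
    ∀ j, j < k → ∀ z t : ZMod n,
      (G (univ.erase (0 : ZMod n)) j (z + (L : ZMod n) * t) : ℤ) -
        (-1) ^ j * (if z + (L : ZMod n) * t = 0 then 1 else 0) =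
      G (univ.erase (0 : ZMod n)) j z - (-1) ^ j * (if z = 0 then 1 else 0) := by
  intro j
  induction j with
  | zero =>
    intro _ z t
    rw [G_zero, G_zero]
    simp
  | succ j ih =>
    intro hj z t
    have h0 := ih (by omega) z t
    have h1 := G_insert (univ.erase (0 : ZMod n)) (Finset.notMem_erase 0 _) j z
    have h2 := G_insert (univ.erase (0 : ZMod n)) (Finset.notMem_erase 0 _) j
      (z + (L : ZMod n) * t)
    rw [insert_erase_univ, sub_zero] at h1 h2
    rw [G_per (hL (j + 1) (by omega) hj)] at h2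
    rw [h1] at h2
    have h3 : (G (univ.erase (0 : ZMod n)) j z : ℤ) + G (univ.erase (0 : ZMod n)) (j + 1) z =
        G (univ.erase (0 : ZMod n)) j (z + (L : ZMod n) * t) +
          G (univ.erase (0 : ZMod n)) (j + 1) (z + (L : ZMod n) * t) := by
      exact_mod_cast h2
    rw [pow_succ]
    linarith

lemma star_y_per {L k : ℕ} (hL : ∀ i, 1 ≤ i → i < k → Nat.gcd i n ∣ L) {y y' s : ZMod n}
    (hy : y ≠ 0) (hy' : y' ≠ 0) (hyy : y' = y + (L : ZMod n) * s) :
    ∀ j, j < k → ∀ z t : ZMod n,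
      (G ((univ.erase (0 : ZMod n)).erase y') j (z + (L : ZMod n) * t) : ℤ) -
        (-1) ^ j * ∑ i ∈ range (j + 1),
          (if z + (L : ZMod n) * t = (i : ZMod n) * y' then 1 else 0) =
      G ((univ.erase (0 : ZMod n)).erase y) j z -
        (-1) ^ j * ∑ i ∈ range (j + 1), (if z = (i : ZMod n) * y then 1 else 0) := by
  intro j
  induction j with
  | zero =>
    intro _ z t
    rw [G_zero, G_zero, Finset.sum_range_one, Finset.sum_range_one]
    simp
  | succ j ih =>
    intro hj z t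
    have h0 := ih (by omega) (z - y) (t - s)
    have hw : z - y + (L : ZMod n) * (t - s) = z + (L : ZMod n) * t - y' := by
      rw [hyy]
      ring
    rw [hw] at h0
    have hs := star_per hL (j + 1) hj z t
    have g : ∀ v w : ZMod n, v ≠ 0 → (G (univ.erase (0 : ZMod n)) (j + 1) w : ℤ) =
        G ((univ.erase (0 : ZMod n)).erase v) j (w - v) +
          G ((univ.erase (0 : ZMod n)).erase v) (j + 1) w := by
      intro v w hv
      have hv' : v ∈ univ.erase (0 : ZMod n) := Finset.mem_erase.2 ⟨hv, Finset.mem_univ _⟩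
      have h1 := G_insert ((univ.erase (0 : ZMod n)).erase v) (Finset.notMem_erase v _) j w
      rw [Finset.insert_erase hv'] at h1
      exact_mod_cast h1
    have f : ∀ v w : ZMod n, ∑ i ∈ range (j + 1 + 1),
        (if w = (i : ZMod n) * v then (1 : ℤ) else 0) =
        ∑ i ∈ range (j + 1), (if w - v = (i : ZMod n) * v then (1 : ℤ) else 0) +
          (if w = 0 then 1 else 0) := by
      intro v w
      rw [Finset.sum_range_succ']
      congr 1
      · apply Finset.sum_congr rfl
        intro i _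
        congr 1
        push_cast
        rw [add_mul, one_mul, sub_eq_iff_eq_add]
      · simp
    have g1 := g y' (z + (L : ZMod n) * t) hy'
    have g2 := g y z hy
    rw [f y' (z + (L : ZMod n) * t), f y z, pow_succ]
    rw [pow_succ] at hs
    linarith

lemma not_design {L k : ℕ} (hk : 1 ≤ k) (hL : ∀ i, 1 ≤ i → i < k → Nat.gcd i n ∣ L)
    {x y y' s : ZMod n} (hy : y ≠ 0) (hy' : y' ≠ 0) (hyy : y' = y + (L : ZMod n) * s)
    (hne : ∑ i ∈ range k, (if x = ((i + 1 : ℕ) : ZMod n) * y' then (1 : ℤ) else 0) ≠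
      ∑ i ∈ range k, (if x = ((i + 1 : ℕ) : ZMod n) * y then (1 : ℤ) else 0)) :
    ¬ IsOneDesign n k x := by
  rintro ⟨-, r, hr⟩
  obtain ⟨j, rfl⟩ : ∃ j, k = j + 1 := ⟨k - 1, by omega⟩
  have h0 := star_y_per hL hy hy' hyy j (by omega) (x - y) (-s)
  have hw : x - y + (L : ZMod n) * (-s) = x - y' := by
    rw [hyy]
    ring
  rw [hw] at h0
  have g : ∀ v : ZMod n, v ≠ 0 → G ((univ.erase (0 : ZMod n)).erase v) j (x - v) = r := by
    intro v hv
    have hv' : v ∈ univ.erase (0 : ZMod n) := Finset.mem_erase.2 ⟨hv, Finset.mem_univ _⟩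
    have h1 := card_mem ((univ.erase (0 : ZMod n)).erase v) (Finset.notMem_erase v _) j x
    rw [Finset.insert_erase hv'] at h1
    rw [← h1]
    exact hr v hv
  have f : ∀ v : ZMod n, ∑ i ∈ range (j + 1), (if x - v = (i : ZMod n) * v then (1 : ℤ) else 0) =
      ∑ i ∈ range (j + 1), (if x = ((i + 1 : ℕ) : ZMod n) * v then (1 : ℤ) else 0) := by
    intro v
    apply Finset.sum_congr rfl
    intro i _
    congr 1
    push_cast
    rw [add_mul, one_mul, sub_eq_iff_eq_add]
  rw [g y' hy', g y hy, f y', f y] at h0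
  apply hne
  have h1 : ((-1 : ℤ)) ^ j * ∑ i ∈ range (j + 1),
      (if x = ((i + 1 : ℕ) : ZMod n) * y' then (1 : ℤ) else 0) =
      (-1) ^ j * ∑ i ∈ range (j + 1),
      (if x = ((i + 1 : ℕ) : ZMod n) * y then (1 : ℤ) else 0) := by linarith
  exact mul_left_cancel₀ (pow_ne_zero _ (by norm_num)) h1

/-- a strict comparison of the counts for `x = 0` -/
lemma not_design_zero {L k : ℕ} (hk : 1 ≤ k) (hL : ∀ i, 1 ≤ i → i < k → Nat.gcd i n ∣ L)
    {Y Y' : ℕ} {s : ZMod n} (hy : ¬ n ∣ Y) (hy' : ¬ n ∣ Y')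
    (hyy : (Y' : ZMod n) = (Y : ZMod n) + (L : ZMod n) * s)
    (himp : ∀ j, 1 ≤ j → j ≤ k → n ∣ j * Y' → n ∣ j * Y) {j₀ : ℕ} (hj1 : 1 ≤ j₀) (hj2 : j₀ ≤ k)
    (hj3 : n ∣ j₀ * Y) (hj4 : ¬ n ∣ j₀ * Y') : ¬ IsOneDesign n k (0 : ZMod n) := by
  have e : ∀ (j M : ℕ), ((0 : ZMod n) = (j : ZMod n) * (M : ZMod n)) ↔ n ∣ j * M := by
    intro j M
    rw [← Nat.cast_mul, eq_comm, ZMod.natCast_eq_zero_iff]
  apply not_design (x := 0) hk hL (y := (Y : ZMod n)) (y' := (Y' : ZMod n)) (s := s)
    (by rw [Ne, ZMod.natCast_eq_zero_iff]; exact hy)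
    (by rw [Ne, ZMod.natCast_eq_zero_iff]; exact hy') hyy
  apply ne_of_lt
  apply Finset.sum_lt_sum
  · intro i hi
    rw [Finset.mem_range] at hi
    simp only [e]
    by_cases h : n ∣ (i + 1) * Y'
    · rw [if_pos h, if_pos (himp (i + 1) (by omega) (by omega) h)]
    · rw [if_neg h]
      split_ifs <;> norm_num
  · refine ⟨j₀ - 1, Finset.mem_range.2 (by omega), ?_⟩
    simp only [e]
    rw [Nat.sub_add_cancel hj1, if_pos hj3, if_neg hj4]
    norm_num

lemma dvd_pred {p a g : ℕ} (hp : p.Prime) (hg : g ∣ p ^ a) (hlt : g < p ^ a) :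
    g ∣ p ^ (a - 1) := by
  obtain ⟨c, hc, rfl⟩ := (Nat.dvd_prime_pow hp).1 hg
  have h1 : c < a := (Nat.pow_lt_pow_iff_right hp.one_lt).1 hlt
  exact pow_dvd_pow p (by omega)

theorem nonspecial {p a m k : ℕ} (hp : p.Prime) (hn : n = p ^ a * m) (ha : 1 ≤ a)
    (hpm : ¬ p ∣ m) (hcase : (m ≠ 1 ∧ k ≤ p ^ a) ∨ (m = 1 ∧ 2 ≤ a ∧ k ≤ p ^ (a - 1)))
    (hk : n.minFac ≤ k) : ¬ IsOneDesign n k (0 : ZMod n) := by
  have hn0 : n ≠ 0 := NeZero.ne n
  have hm0 : 0 < m := by
    rcases Nat.eq_zero_or_pos m with h | h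
    · subst h; rw [mul_zero] at hn; exact absurd hn hn0
    · exact h
  have hk1 : 1 ≤ k := (Nat.minFac_pos n).trans_le hk
  obtain ⟨b, rfl⟩ : ∃ b, a = b + 1 := ⟨a - 1, by omega⟩
  have hpb : 0 < p ^ b := pow_pos hp.pos b
  rcases hcase with ⟨hm1, hka⟩ | ⟨rfl, ha2, hka⟩
  · by_cases hex : ∃ q, q.Prime ∧ q ∣ m ∧ q ≤ k
    · obtain ⟨q, hq, ⟨m', rfl⟩, hqk⟩ := hex
      have hpq : ¬ p ∣ q := fun h => hpm (h.trans (Dvd.intro _ rfl))
      have hm' : 0 < m' := Nat.pos_of_mul_pos_left hm0 |> fun _ => by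
        rcases Nat.eq_zero_or_pos m' with h | h
        · subst h; simp at hm0
        · exact h
      have hw : 0 < p ^ b * m' := Nat.mul_pos hpb hm'
      have hnw : n = (p * q) * (p ^ b * m') := by rw [hn, pow_succ]; ring
      have red1 : ∀ c : ℕ, n ∣ c * (p ^ b * m') ↔ p * q ∣ c := by
        intro c
        rw [hnw]
        exact Nat.mul_dvd_mul_iff_right hw
      have e1 : ∀ c : ℕ, c * (p * (p ^ b * m')) = (c * p) * (p ^ b * m') := fun c => by ring
      have e2 : ∀ c : ℕ, c * ((p + q) * (p ^ b * m')) = (c * (p + q)) * (p ^ b * m') :=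
        fun c => by ring
      apply not_design_zero (L := q * (p ^ b * m')) (Y := p * (p ^ b * m'))
        (Y' := (p + q) * (p ^ b * m')) (s := 1) hk1 (j₀ := q) ?_ ?_ ?_ ?_ ?_ hq.one_lt.le hqk ?_ ?_
      · intro i hi1 hi2
        have hgi : Nat.gcd i n ≤ i := Nat.gcd_le_left n hi1
        have hgn : Nat.gcd i n ∣ p ^ (b + 1) * (q * m') := hn ▸ Nat.gcd_dvd_right i n
        obtain ⟨g1, g2, hg1, hg2, hg⟩ := (Nat.dvd_mul).1 hgn
        have hg2p : 0 < g2 := Nat.pos_of_dvd_of_pos hg2 hm0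
        have hlt : g1 < p ^ (b + 1) := by
          have : g1 ≤ g1 * g2 := Nat.le_mul_of_pos_right g1 hg2p
          omega
        have h3 := dvd_pred hp hg1 hlt
        rw [Nat.add_sub_cancel] at h3
        rw [← hg]
        have h4 := mul_dvd_mul h3 hg2
        have h5 : p ^ b * (q * m') = q * (p ^ b * m') := by ring
        rwa [h5] at h4
      · rw [red1]
        intro h
        have h2 : q ∣ p := (Dvd.intro_left p rfl : q ∣ p * q).trans h
        rcases (Nat.dvd_prime hp).1 h2 with h3 | h3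
        · exact hq.one_lt.ne' h3
        · exact hpq (h3 ▸ dvd_refl _)
      · rw [red1]
        intro h
        have h2 : p ∣ p + q := (Dvd.intro _ rfl : p ∣ p * q).trans h
        exact hpq ((Nat.dvd_add_right (dvd_refl p)).1 h2)
      · push_cast
        ring
      · intro c _ _ h
        rw [e2, red1] at h
        rw [e1, red1]
        have h2 : q ∣ c * (p + q) := (Dvd.intro_left p rfl : q ∣ p * q).trans h
        have h3 : q ∣ c * p := by
          rw [mul_add] at h2
          exact (Nat.dvd_add_left (Dvd.intro_left c rfl)).1 h2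
        have hcop : Nat.Coprime q p := (Nat.coprime_primes hq hp).2 (fun h => hpq (h ▸ dvd_refl _))
        have h4 : q ∣ c := hcop.dvd_of_dvd_mul_right h3
        rw [mul_comm c p]
        exact Nat.mul_dvd_mul_left p h4
      · rw [e1, red1, mul_comm]
      · rw [e2, red1, mul_comm q (p + q)]
        intro h
        have h2 := Nat.dvd_of_mul_dvd_mul_right hq.pos h
        exact hpq ((Nat.dvd_add_right (dvd_refl p)).1 h2)
    · push Not at hex
      -- the least prime factor is `p`
      have hmf : n.minFac = p := by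
        have h1 : n.minFac.Prime := Nat.minFac_prime (by
          intro h
          rw [hn] at h
          have := Nat.eq_one_of_mul_eq_one_left h
          exact hm1 this)
        have h2 : n.minFac ∣ p ^ (b + 1) * m := hn ▸ Nat.minFac_dvd n
        rcases (Nat.Prime.dvd_mul h1).1 h2 with h3 | h3
        · exact (Nat.prime_dvd_prime_iff_eq h1 hp).1 (h1.dvd_of_dvd_pow h3)
        · exact absurd hk (not_le.2 (hex _ h1 h3))
      have hpk : p ≤ k := hmf ▸ hk
      obtain ⟨q, hq, hqm⟩ := Nat.exists_prime_and_dvd hm1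
      have hqk := hex q hq hqm
      have hnw : n = (p * m) * p ^ b := by rw [hn, pow_succ]; ring
      have red1 : ∀ c : ℕ, n ∣ c * p ^ b ↔ p * m ∣ c := by
        intro c
        rw [hnw]
        exact Nat.mul_dvd_mul_iff_right hpb
      have e1 : ∀ c : ℕ, c * (m * p ^ b) = (c * m) * p ^ b := fun c => by ring
      apply not_design_zero (L := p ^ b) (Y := m * p ^ b) (Y' := p ^ b) (s := 1 - (m : ZMod n))
        hk1 (j₀ := p) ?_ ?_ ?_ ?_ ?_ hp.one_lt.le hpk ?_ ?_
      · intro i hi1 hi2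
        have hgi : Nat.gcd i n ≤ i := Nat.gcd_le_left n hi1
        have hcop : Nat.Coprime (Nat.gcd i n) m := by
          by_contra hc
          obtain ⟨r, hr, hr1, hr2⟩ := Nat.Prime.not_coprime_iff_dvd.1 hc
          have h3 := hex r hr hr2
          have h4 := Nat.le_of_dvd (Nat.gcd_pos_of_pos_left _ hi1) hr1
          omega
        have hgn : Nat.gcd i n ∣ p ^ (b + 1) * m := hn ▸ Nat.gcd_dvd_right i n
        have h3 := hcop.dvd_of_dvd_mul_right hgn
        have h4 := dvd_pred hp h3 (by omega)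
        rwa [Nat.add_sub_cancel] at h4
      · rw [red1]
        intro h
        have := Nat.le_of_dvd hm0 h
        have h2 := Nat.mul_le_mul_right m hp.two_le
        omega
      · rw [← one_mul (p ^ b), red1]
        intro h
        have := Nat.le_of_dvd one_pos h
        have h2 := Nat.mul_le_mul_right m hp.two_le
        omega
      · push_cast
        ring
      · intro c hc1 hc2 h
        rw [red1] at h
        have h2 : q ∣ c := (hqm.trans (Dvd.intro_left p rfl)).trans h
        have := Nat.le_of_dvd (by omega) h2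
        omega
      · rw [e1, red1]
      · rw [red1]
        intro h
        have h2 : q ∣ p := (hqm.trans (Dvd.intro_left p rfl)).trans h
        have := Nat.le_of_dvd hp.pos h2
        omega
  · -- prime powers
    obtain ⟨c, rfl⟩ : ∃ c, b = c + 1 := ⟨b - 1, by omega⟩
    rw [Nat.add_sub_cancel] at hka
    have hpc : 0 < p ^ c := pow_pos hp.pos c
    rw [mul_one] at hn
    have hmf : n.minFac = p := by rw [hn, Nat.Prime.pow_minFac hp (by omega)]
    have hpk : p ≤ k := hmf ▸ hk
    have hnw : n = (p * p) * p ^ c := by rw [hn, pow_succ, pow_succ]; ring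
    have red1 : ∀ d : ℕ, n ∣ d * p ^ c ↔ p * p ∣ d := by
      intro d
      rw [hnw]
      exact Nat.mul_dvd_mul_iff_right hpc
    have e1 : ∀ d : ℕ, d * (p * p ^ c) = (d * p) * p ^ c := fun d => by ring
    have hpp : p < p * p := by
      have := Nat.mul_le_mul_right p hp.two_le
      have := hp.pos
      omega
    apply not_design_zero (L := p ^ c) (Y := p * p ^ c) (Y' := p ^ c) (s := 1 - (p : ZMod n))
      hk1 (j₀ := p) ?_ ?_ ?_ ?_ ?_ hp.one_lt.le hpk ?_ ?_
    · intro i hi1 hi2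
      have hgi : Nat.gcd i n ≤ i := Nat.gcd_le_left n hi1
      have hgn : Nat.gcd i n ∣ p ^ (c + 1 + 1) := hn ▸ Nat.gcd_dvd_right i n
      obtain ⟨d, hd, hde⟩ := (Nat.dvd_prime_pow hp).1 hgn
      have h1 : p ^ d < p ^ (c + 1) := by
        rw [← hde]
        omega
      have h2 : d < c + 1 := (Nat.pow_lt_pow_iff_right hp.one_lt).1 h1
      rw [hde]
      exact pow_dvd_pow p (by omega)
    · rw [red1]
      intro h
      have := Nat.le_of_dvd hp.pos h
      omega
    · rw [← one_mul (p ^ c), red1]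
      intro h
      have := Nat.le_of_dvd one_pos h
      have := hp.two_le
      omega
    · push_cast
      ring
    · intro d _ _ h
      rw [red1] at h
      rw [e1, red1]
      exact Dvd.dvd.mul_right h p
    · rw [e1, red1]
    · rw [red1]
      intro h
      have := Nat.le_of_dvd hp.pos h
      omega

theorem special {p a m k : ℕ} (hodd : Odd n) (hp : p.Prime) (hn : n = p ^ a * m) (ha : 1 ≤ a)
    (hpm : ¬ p ∣ m) (hcase : (m ≠ 1 ∧ k ≤ p ^ a) ∨ (m = 1 ∧ 2 ≤ a ∧ k ≤ p ^ (a - 1)))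
    (hk : 1 ≤ k) :
    (IsOneDesign n k (0 : ZMod n) ↔ 2 ≤ k ∧ k < n.minFac) ∧
    (IsOneDesign n (n - 1 - k) (0 : ZMod n) ↔ 2 ≤ k ∧ k < n.minFac) := by
  have hn0 : n ≠ 0 := NeZero.ne n
  have hm0 : 0 < m := by
    rcases Nat.eq_zero_or_pos m with h | h
    · subst h; rw [mul_zero] at hn; exact absurd hn hn0
    · exact h
  have hpa : p ≤ p ^ a := Nat.le_self_pow (by omega) p
  have hpap : 0 < p ^ a := pow_pos hp.pos a
  have hp2 := hp.two_le
  have hnle : p ^ a ≤ n := by
    rw [hn]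
    exact Nat.le_mul_of_pos_right _ hm0
  have hn3 : 3 ≤ n := by
    obtain ⟨l, hl⟩ := hodd
    omega
  have hnp : ¬ n.Prime := by
    intro h
    have h1 : p ∣ n := by
      rw [hn]
      exact (dvd_pow_self p (by omega)).mul_right m
    have h2 : p = n := (Nat.prime_dvd_prime_iff_eq hp h).1 h1
    rcases hcase with ⟨hm1, -⟩ | ⟨rfl, ha2, -⟩
    · have hm2 : 2 ≤ m := by omega
      have h3 := Nat.mul_le_mul hpa hm2
      omega
    · have h3 : p ^ 2 ≤ p ^ a := Nat.pow_le_pow_right hp.pos ha2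
      have h4 : p * 2 ≤ p * p := Nat.mul_le_mul_left p hp2
      rw [sq] at h3
      omega
  have hb := sq_bound hodd hn3 hnp
  have hkn : k + 2 ≤ n := by
    rcases hcase with ⟨hm1, hka⟩ | ⟨rfl, ha2, hka⟩
    · have hm2 : 2 ≤ m := by omega
      have h3 := Nat.mul_le_mul_left (p ^ a) hm2
      omega
    · have h3 : p ^ a = p ^ (a - 1) * p := by
        rw [← pow_succ]
        congr 1
        omega
      have h4 : p ^ (a - 1) * 2 ≤ p ^ (a - 1) * p := Nat.mul_le_mul_left _ hp2
      have h5 : 0 < p ^ (a - 1) := pow_pos hp.pos _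
      have h6 : 2 ≤ p ^ (a - 1) := hp2.trans (Nat.le_self_pow (by omega) p)
      omega
  have h1 : IsOneDesign n k (0 : ZMod n) ↔ 2 ≤ k ∧ k < n.minFac := by
    rcases lt_or_ge k n.minFac with h | h
    · rw [both hodd hn3 hk (by omega) (Or.inl h.le)]
      constructor
      · rintro ⟨-, h2, -⟩
        exact ⟨h2, h⟩
      · rintro ⟨h2, -⟩
        exact ⟨rfl, h2, by omega, by omega, by omega⟩
    · constructor
      · intro h2
        exact absurd h2 (nonspecial hp hn ha hpm hcase h)
      · rintro ⟨-, h2⟩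
        omega
  refine ⟨h1, ?_⟩
  rw [← h1, design_compl_iff hodd (by omega) (0 : ZMod n), neg_zero,
    show n - 1 - (n - 1 - k) = k by omega]

end Pool.Agent.Run7.h631.SD
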