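import Mathlib
import Pool.Agent.Run7.h631.SD.Per

set_option autoImplicit false

/-! The case of a unit `x`. -/

namespace Pool.Agent.Run7.h631.SD
open Finset

variable {n : ℕ} [NeZero n]

theorem unit_case {p a m k : ℕ} (hodd : Odd n) (hp : p.Prime) (hn : n = p ^ a * m) (ha : 1 ≤ a)
    (hpm : ¬ p ∣ m) (hcase : (m ≠ 1 ∧ k ≤ p ^ a) ∨ (m = 1 ∧ 2 ≤ a ∧ 2 * k ≤ n))
    (hk : 1 ≤ k) {x : ZMod n} (hx : IsUnit x) : ¬ IsOneDesign n k x := by
  have hn0 : n ≠ 0 := NeZero.ne n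
  have hm0 : 0 < m := by
    rcases Nat.eq_zero_or_pos m with h | h
    · subst h; rw [mul_zero] at hn; exact absurd hn hn0
    · exact h
  obtain ⟨b, rfl⟩ : ∃ b, a = b + 1 := ⟨a - 1, by omega⟩
  have hpb : 0 < p ^ b := pow_pos hp.pos b
  have hp2 := hp.two_le
  have hpn : p ∣ n := by
    rw [hn]
    exact (dvd_pow_self p (by omega)).mul_right m
  have hmn : m ∣ n := by
    rw [hn]
    exact Dvd.intro_left _ rfl
  have hpo : Odd p := Odd.of_dvd_nat hodd hpn
  have hmo : Odd m := Odd.of_dvd_nat hodd hmn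
  have hp3 : 3 ≤ p := by
    obtain ⟨l, hl⟩ := hpo
    omega
  have hm3 : m ≠ 1 → 3 ≤ m := by
    intro h
    obtain ⟨l, hl⟩ := hmo
    omega
  have hnw : n = p * (p ^ b * m) := by rw [hn, pow_succ]; ring
  have hq0 : 0 < p ^ b * m := Nat.mul_pos hpb hm0
  have hkpa : k ≤ p ^ (b + 1) := by
    rcases hcase with ⟨-, h⟩ | ⟨rfl, -, h⟩
    · exact h
    · rw [mul_one] at hn
      omega
  -- the shift
  obtain ⟨t, ht1, ht2, ht3, ht4⟩ : ∃ t, t < p ∧ p ≤ t + 2 ∧ ¬ p ∣ 1 + p ^ b * m * t ∧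
      (1 ≤ b → t = p - 1) := by
    rcases Nat.eq_zero_or_pos b with hb | hb
    · subst hb
      rw [pow_zero, one_mul]
      by_cases h : p ∣ 1 + m * (p - 1)
      · refine ⟨p - 2, by omega, by omega, ?_, by omega⟩
        intro h2
        apply hpm
        have h3 : 1 + m * (p - 1) = (1 + m * (p - 2)) + m := by
          obtain ⟨l, rfl⟩ : ∃ l, p = l + 2 := ⟨p - 2, by omega⟩
          rw [Nat.add_sub_cancel, show l + 2 - 1 = l + 1 by omega]
          ring
        rw [h3] at h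
        exact (Nat.dvd_add_right h2).1 h
      · exact ⟨p - 1, by omega, by omega, h, by omega⟩
    · refine ⟨p - 1, by omega, by omega, ?_, fun _ => rfl⟩
      intro h
      have h2 : p ∣ p ^ b * m * (p - 1) :=
        (((dvd_pow_self p (by omega)).mul_right m).mul_right _)
      have h3 := (Nat.dvd_add_left h2).1 h
      exact hp.one_lt.ne' (Nat.dvd_one.1 h3)
  have hwk : k < 1 + p ^ b * m * t := by
    rcases hcase with ⟨h1, h2⟩ | ⟨rfl, h1, h2⟩
    · have h3 := hm3 h1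
      have h4 : p ≤ m * t := by
        have : 3 * (p - 2) ≤ m * t := Nat.mul_le_mul h3 (by omega)
        omega
      have h5 : p ^ b * p ≤ p ^ b * (m * t) := Nat.mul_le_mul_left _ h4
      rw [← mul_assoc, ← pow_succ] at h5
      omega
    · have h3 := ht4 (by omega)
      subst h3
      rw [mul_one] at hnw ⊢
      have h4 : p ≤ 2 * (p - 1) := by omega
      have h5 : p ^ b * p ≤ p ^ b * (2 * (p - 1)) := Nat.mul_le_mul_left _ h4
      have h6 : p ^ b * (2 * (p - 1)) = 2 * (p ^ b * (p - 1)) := by ring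
      have h7 : p * p ^ b = p ^ b * p := mul_comm _ _
      omega
  have hq2 : 2 ≤ p ^ b * m := by
    rcases hcase with ⟨h1, -⟩ | ⟨rfl, h1, -⟩
    · have h3 := hm3 h1
      have h4 : 1 * 3 ≤ p ^ b * m := Nat.mul_le_mul hpb h3
      omega
    · rw [mul_one]
      exact hp2.trans (Nat.le_self_pow (by omega) p)
  have hwn : 1 + p ^ b * m * t < n := by
    have h1 : p ^ b * m * t ≤ p ^ b * m * (p - 1) := Nat.mul_le_mul_left _ (by omega)
    have h2 : p ^ b * m * (p - 1) + p ^ b * m = p * (p ^ b * m) := by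
      obtain ⟨l, rfl⟩ : ∃ l, p = l + 1 := ⟨p - 1, by omega⟩
      rw [Nat.add_sub_cancel]
      ring
    omega
  have hcop : Nat.Coprime (1 + p ^ b * m * t) n := by
    have h1 : Nat.Coprime (1 + p ^ b * m * t) p :=
      ((Nat.Prime.coprime_iff_not_dvd hp).2 ht3).symm
    have h2 : Nat.Coprime (1 + p ^ b * m * t) m := by
      rw [show 1 + p ^ b * m * t = 1 + (p ^ b * t) * m by ring]
      rw [Nat.coprime_add_mul_right_left]
      exact Nat.coprime_one_left m
    have h3 := Nat.Coprime.mul_right (Nat.Coprime.pow_right (b + 1) h1) h2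
    rwa [← hn] at h3
  set w := 1 + p ^ b * m * t with hw
  obtain ⟨v, hv⟩ : ∃ v : ZMod n, (w : ZMod n) * v = 1 :=
    ⟨((ZMod.unitOfCoprime w hcop)⁻¹ : (ZMod n)ˣ), by
      rw [← ZMod.coe_unitOfCoprime w hcop, Units.mul_inv]⟩
  haveI : Fact (1 < n) := ⟨by omega⟩
  have hx0 : x ≠ 0 := hx.ne_zero
  have hvu : IsUnit v := IsUnit.of_mul_eq_one (w : ZMod n) (by rw [mul_comm]; exact hv)
  have hxv0 : x * v ≠ 0 := (hx.mul hvu).ne_zero
  have hwc : (w : ZMod n) = 1 + ((p ^ b * m : ℕ) : ZMod n) * (t : ZMod n) := by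
    rw [hw]
    push_cast
    ring
  apply not_design (x := x) (L := p ^ b * m) (y := x) (y' := x * v)
    (s := -((t : ZMod n) * v * x)) hk ?_ hx0 hxv0 ?_ ?_
  · intro i hi1 hi2
    have hgi : Nat.gcd i n ≤ i := Nat.gcd_le_left n hi1
    have hgn : Nat.gcd i n ∣ p ^ (b + 1) * m := hn ▸ Nat.gcd_dvd_right i n
    obtain ⟨g1, g2, hg1, hg2, hg⟩ := (Nat.dvd_mul).1 hgn
    have hg2p : 0 < g2 := Nat.pos_of_dvd_of_pos hg2 hm0
    have hlt : g1 < p ^ (b + 1) := by
      have : g1 ≤ g1 * g2 := Nat.le_mul_of_pos_right g1 hg2p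
      omega
    have h3 := dvd_pred hp hg1 hlt
    rw [Nat.add_sub_cancel] at h3
    rw [← hg]
    exact mul_dvd_mul h3 hg2
  · rw [hwc] at hv
    linear_combination x * hv
  · have h1 : ∑ i ∈ range k, (if x = ((i + 1 : ℕ) : ZMod n) * (x * v) then (1 : ℤ) else 0) = 0 := by
      apply Finset.sum_eq_zero
      intro i hi
      rw [Finset.mem_range] at hi
      rw [if_neg]
      intro h
      have h2 : x * (w : ZMod n) = x * ((i + 1 : ℕ) : ZMod n) := by
        linear_combination (w : ZMod n) * h + x * ((i + 1 : ℕ) : ZMod n) * hv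
      have h3 : (w : ZMod n) = ((i + 1 : ℕ) : ZMod n) := hx.mul_left_cancel h2
      rw [ZMod.natCast_eq_natCast_iff, Nat.ModEq, Nat.mod_eq_of_lt hwn,
        Nat.mod_eq_of_lt (by omega)] at h3
      omega
    have h2 : (1 : ℤ) ≤ ∑ i ∈ range k, (if x = ((i + 1 : ℕ) : ZMod n) * x then (1 : ℤ) else 0) := by
      have h6 := Finset.single_le_sum (s := range k)
        (f := fun i : ℕ => (if x = ((i + 1 : ℕ) : ZMod n) * x then (1 : ℤ) else 0))
        (fun i _ => by split_ifs <;> norm_num) (Finset.mem_range.2 hk)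
      have h7 : (if x = ((0 + 1 : ℕ) : ZMod n) * x then (1 : ℤ) else 0) = 1 := by
        rw [if_pos]
        simp
      linarith
    rw [h1]
    omega

theorem unit_pow {p a k : ℕ} (hodd : Odd n) (hp : p.Prime) (hn : n = p ^ a) (ha : 2 ≤ a)
    (hk : 1 ≤ k) (hkn : k ≤ n - 2) {x : ZMod n} (hx : IsUnit x) : ¬ IsOneDesign n k x := by
  have h1 : ¬ p ∣ 1 := fun h => hp.one_lt.ne' (Nat.dvd_one.1 h)
  rcases le_or_gt (2 * k) n with h | h
  · exact unit_case (m := 1) hodd hp (by rw [mul_one]; exact hn) (by omega) h1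
      (Or.inr ⟨rfl, ha, h⟩) hk hx
  · rw [design_compl_iff hodd (by omega)]
    exact unit_case (m := 1) hodd hp (by rw [mul_one]; exact hn) (by omega) h1
      (Or.inr ⟨rfl, ha, by omega⟩) (by omega) hx.neg

theorem unit_both {p a m k : ℕ} (hodd : Odd n) (hp : p.Prime) (hn : n = p ^ a * m) (ha : 1 ≤ a)
    (hpm : ¬ p ∣ m) (hm : m ≠ 1) (hka : k ≤ p ^ a) (hk : 1 ≤ k) {x : ZMod n} (hx : IsUnit x) :
    ¬ IsOneDesign n k x ∧ ¬ IsOneDesign n (n - 1 - k) x := by
  refine ⟨unit_case hodd hp hn ha hpm (Or.inl ⟨hm, hka⟩) hk hx, ?_⟩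
  have hn0 : n ≠ 0 := NeZero.ne n
  have hm0 : 0 < m := by
    rcases Nat.eq_zero_or_pos m with h | h
    · subst h; rw [mul_zero] at hn; exact absurd hn hn0
    · exact h
  have hpap : 0 < p ^ a := pow_pos hp.pos a
  have h3 : p ^ a * 2 ≤ p ^ a * m := Nat.mul_le_mul_left (p ^ a) (by omega)
  rw [design_compl_iff hodd (by omega), show n - 1 - (n - 1 - k) = k by omega]
  exact unit_case hodd hp hn ha hpm (Or.inl ⟨hm, hka⟩) hk hx.neg

end Pool.Agent.Run7.h631.SD
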