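import Mathlib
import Pool.Agent.Run7.h631.SD.Unit

set_option autoImplicit false

/-! The case of a general `x ≠ 0`, by its order. -/

namespace Pool.Agent.Run7.h631.SD
open Finset

variable {n : ℕ} [NeZero n]

theorem ord_case {p f o k : ℕ} (hodd : Odd n) (hp : p.Prime) {x : ZMod n}
    (hN : addOrderOf x = p ^ f * o) (hf : 1 ≤ f) (hpo : ¬ p ∣ o) (hk : 1 ≤ k) (hkf : k ≤ p ^ f)
    (hko : o ≠ 1 ∨ k ≤ (p - 2) * p ^ (f - 1)) : ¬ IsOneDesign n k x := by
  have : Fact p.Prime := ⟨hp⟩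
  have hn0 : n ≠ 0 := NeZero.ne n
  obtain ⟨g, rfl⟩ : ∃ g, f = g + 1 := ⟨f - 1, by omega⟩
  rw [Nat.add_sub_cancel] at hko
  have hpg : 0 < p ^ g := pow_pos hp.pos g
  have hp2 := hp.two_le
  have hNn : p ^ (g + 1) * o ∣ n := by
    rw [← hN]
    apply addOrderOf_dvd_of_nsmul_eq_zero
    rw [nsmul_eq_mul, ZMod.natCast_self, zero_mul]
  obtain ⟨N', hN'⟩ := hNn
  have hN'0 : N' ≠ 0 := by
    rintro rfl
    rw [mul_zero] at hN'
    exact hn0 hN'
  obtain ⟨c, o', ho', hN''⟩ := Nat.exists_eq_pow_mul_and_not_dvd hN'0 p hp.ne_one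
  have ho0 : 0 < o := by
    rcases Nat.eq_zero_or_pos o with h | h
    · subst h
      exact absurd (dvd_zero p) hpo
    · exact h
  have ho'0 : 0 < o' := by
    rcases Nat.eq_zero_or_pos o' with h | h
    · subst h
      exact absurd (dvd_zero p) ho'
    · exact h
  have hn : n = p ^ (g + 1 + c) * (o * o') := by
    rw [hN', hN'', pow_add p (g + 1) c]
    ring
  have hpn : p ∣ n := by
    rw [hn]
    exact (dvd_pow_self p (by omega)).mul_right _
  have hpo2 : Odd p := Odd.of_dvd_nat hodd hpn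
  have hoo : Odd o := Odd.of_dvd_nat hodd (by
    rw [hn]
    exact (Dvd.intro _ rfl : o ∣ o * o').mul_left _)
  have hp3 : 3 ≤ p := by
    obtain ⟨l, hl⟩ := hpo2
    omega
  have ho3 : o ≠ 1 → 3 ≤ o := by
    intro h
    obtain ⟨l, hl⟩ := hoo
    omega
  obtain ⟨t', ht1, ht2, ht3⟩ : ∃ t', t' < p ∧ p ≤ t' + 2 ∧ ¬ p ∣ 1 + p ^ g * o * t' := by
    rcases Nat.eq_zero_or_pos g with hb | hb
    · subst hb
      rw [pow_zero, one_mul]
      by_cases h : p ∣ 1 + o * (p - 1)
      · refine ⟨p - 2, by omega, by omega, ?_⟩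
        intro h2
        apply hpo
        have h3 : 1 + o * (p - 1) = (1 + o * (p - 2)) + o := by
          obtain ⟨l, rfl⟩ : ∃ l, p = l + 2 := ⟨p - 2, by omega⟩
          rw [Nat.add_sub_cancel, show l + 2 - 1 = l + 1 by omega]
          ring
        rw [h3] at h
        exact (Nat.dvd_add_right h2).1 h
      · exact ⟨p - 1, by omega, by omega, h⟩
    · refine ⟨p - 1, by omega, by omega, ?_⟩
      intro h
      have h2 : p ∣ p ^ g * o * (p - 1) :=
        (((dvd_pow_self p (by omega)).mul_right o).mul_right _)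
      have h3 := (Nat.dvd_add_left h2).1 h
      exact hp.one_lt.ne' (Nat.dvd_one.1 h3)
  have hkW : k < 1 + p ^ g * o * t' := by
    rcases hko with h1 | h2
    · have h3 := ho3 h1
      have h4 : p ≤ o * t' := by
        have : 3 * (p - 2) ≤ o * t' := Nat.mul_le_mul h3 (by omega)
        omega
      have h5 : p ^ g * p ≤ p ^ g * (o * t') := Nat.mul_le_mul_left _ h4
      rw [← mul_assoc, ← pow_succ] at h5
      omega
    · have h4 : p - 2 ≤ o * t' := by
        have : 1 * (p - 2) ≤ o * t' := Nat.mul_le_mul ho0 (by omega)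
        omega
      have h5 : p ^ g * (p - 2) ≤ p ^ g * (o * t') := Nat.mul_le_mul_left _ h4
      rw [← mul_assoc, mul_comm (p ^ g) (p - 2)] at h5
      omega
  have hWN : 1 + p ^ g * o * t' ≤ p ^ (g + 1) * o := by
    have h1 : p ^ g * o * t' ≤ p ^ g * o * (p - 1) := Nat.mul_le_mul_left _ (by omega)
    have h2 : p ^ g * o * (p - 1) + p ^ g * o = p ^ (g + 1) * o := by
      obtain ⟨l, rfl⟩ : ∃ l, p = l + 1 := ⟨p - 1, by omega⟩
      rw [Nat.add_sub_cancel, pow_succ]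
      ring
    have h3 : 0 < p ^ g * o := Nat.mul_pos hpg ho0
    omega
  -- the multiplier
  obtain ⟨t, ht⟩ : ∃ t : ℕ, o' * t ≡ t' [MOD p] := by
    refine ⟨((t' : ZMod p) * (o' : ZMod p)⁻¹).val, ?_⟩
    rw [← ZMod.natCast_eq_natCast_iff]
    rw [Nat.cast_mul, ZMod.natCast_zmod_val]
    have h : (o' : ZMod p) ≠ 0 := by
      rw [Ne, ZMod.natCast_eq_zero_iff]
      exact ho'
    field_simp
  have hmod : 1 + p ^ g * (o * o') * t ≡ 1 + p ^ g * o * t' [MOD p ^ (g + 1) * o] := by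
    have h1 : (p ^ g * o) * (o' * t) ≡ (p ^ g * o) * t' [MOD (p ^ g * o) * p] :=
      Nat.ModEq.mul_left' _ ht
    have h2 : (p ^ g * o) * p = p ^ (g + 1) * o := by rw [pow_succ]; ring
    have h3 : (p ^ g * o) * (o' * t) = p ^ g * (o * o') * t := by ring
    rw [h2, h3] at h1
    exact Nat.ModEq.add_left 1 h1
  have hpw : ¬ p ∣ 1 + p ^ g * (o * o') * t := by
    have h1 : p ∣ p ^ (g + 1) * o := (dvd_pow_self p (by omega)).mul_right o
    rw [(hmod.of_dvd h1).dvd_iff (dvd_refl p)]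
    exact ht3
  have hcop : Nat.Coprime (1 + p ^ g * (o * o') * t) n := by
    have h1 : Nat.Coprime (1 + p ^ g * (o * o') * t) p :=
      ((Nat.Prime.coprime_iff_not_dvd hp).2 hpw).symm
    have h2 : Nat.Coprime (1 + p ^ g * (o * o') * t) (o * o') := by
      rw [show 1 + p ^ g * (o * o') * t = 1 + (p ^ g * t) * (o * o') by ring]
      rw [Nat.coprime_add_mul_right_left]
      exact Nat.coprime_one_left _
    have h3 := Nat.Coprime.mul_right (Nat.Coprime.pow_right (g + 1 + c) h1) h2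
    rwa [← hn] at h3
  set w := 1 + p ^ g * (o * o') * t with hw
  obtain ⟨v, hv⟩ : ∃ v : ZMod n, (w : ZMod n) * v = 1 :=
    ⟨((ZMod.unitOfCoprime w hcop)⁻¹ : (ZMod n)ˣ), by
      rw [← ZMod.coe_unitOfCoprime w hcop, Units.mul_inv]⟩
  have hN1 : 1 < p ^ (g + 1) * o := by
    have h1 : p ≤ p ^ (g + 1) := Nat.le_self_pow (by omega) p
    have h2 : p ^ (g + 1) ≤ p ^ (g + 1) * o := Nat.le_mul_of_pos_right _ ho0
    omega
  have hx0 : x ≠ 0 := by
    rintro rfl
    rw [addOrderOf_zero] at hN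
    omega
  have hvu : IsUnit v := IsUnit.of_mul_eq_one (w : ZMod n) (by rw [mul_comm]; exact hv)
  have hxv0 : x * v ≠ 0 := by
    intro h
    exact hx0 ((hvu.mul_left_eq_zero).1 h)
  have hwc : (w : ZMod n) = 1 + ((p ^ g * (o * o') : ℕ) : ZMod n) * (t : ZMod n) := by
    rw [hw]
    push_cast
    ring
  apply not_design (x := x) (L := p ^ g * (o * o')) (y := x) (y' := x * v)
    (s := -((t : ZMod n) * v * x)) hk ?_ hx0 hxv0 ?_ ?_
  · intro i hi1 hi2
    have hgi : Nat.gcd i n ≤ i := Nat.gcd_le_left n hi1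
    have hgn : Nat.gcd i n ∣ p ^ (g + 1 + c) * (o * o') := hn ▸ Nat.gcd_dvd_right i n
    obtain ⟨g1, g2, hg1, hg2, hg⟩ := (Nat.dvd_mul).1 hgn
    have hg2p : 0 < g2 := Nat.pos_of_dvd_of_pos hg2 (Nat.mul_pos ho0 ho'0)
    have hlt : g1 < p ^ (g + 1) := by
      have : g1 ≤ g1 * g2 := Nat.le_mul_of_pos_right g1 hg2p
      omega
    obtain ⟨d, hd, rfl⟩ := (Nat.dvd_prime_pow hp).1 hg1
    have h1 : d < g + 1 := (Nat.pow_lt_pow_iff_right hp.one_lt).1 hlt
    rw [← hg]
    exact mul_dvd_mul (pow_dvd_pow p (by omega)) hg2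
  · rw [hwc] at hv
    linear_combination x * hv
  · have h1 : ∑ i ∈ range k, (if x = ((i + 1 : ℕ) : ZMod n) * (x * v) then (1 : ℤ) else 0) = 0 := by
      apply Finset.sum_eq_zero
      intro i hi
      rw [Finset.mem_range] at hi
      rw [if_neg]
      intro h
      have h2 : (((w : ℤ) - ((i + 1 : ℕ) : ℤ)) : ℤ) • x = 0 := by
        rw [zsmul_eq_mul]
        push_cast
        push_cast at h
        linear_combination (w : ZMod n) * h + x * ((i : ZMod n) + 1) * hv
      rw [← addOrderOf_dvd_iff_zsmul_eq_zero, hN] at h2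
      have h3 : i + 1 ≡ w [MOD p ^ (g + 1) * o] := (Nat.modEq_iff_dvd).2 h2
      have h4 := h3.trans hmod
      have h5 := (Nat.modEq_iff_dvd' (by omega)).1 h4
      have h6 := Nat.le_of_dvd (by omega) h5
      omega
    have h2 : (1 : ℤ) ≤ ∑ i ∈ range k, (if x = ((i + 1 : ℕ) : ZMod n) * x then (1 : ℤ) else 0) := by
      have h6 := Finset.single_le_sum (s := range k)
        (f := fun i : ℕ => (if x = ((i + 1 : ℕ) : ZMod n) * x then (1 : ℤ) else 0))
        (fun i _ => by split_ifs <;> norm_num) (Finset.mem_range.2 hk)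
      have h7 : (if x = ((0 + 1 : ℕ) : ZMod n) * x then (1 : ℤ) else 0) = 1 := by
        rw [if_pos]
        simp
      linarith
    rw [h1]
    omega

theorem ord_both {p f o k : ℕ} (hodd : Odd n) (hp : p.Prime) {x : ZMod n}
    (hN : addOrderOf x = p ^ f * o) (hf : 1 ≤ f) (hpo : ¬ p ∣ o) (hk : 1 ≤ k) (hkn : k ≤ n - 1)
    (hkf : k ≤ p ^ f) (hko : o ≠ 1 ∨ k ≤ (p - 2) * p ^ (f - 1)) :
    ¬ IsOneDesign n k x ∧ ¬ IsOneDesign n (n - 1 - k) x := by
  refine ⟨ord_case hodd hp hN hf hpo hk hkf hko, ?_⟩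
  rw [design_compl_iff hodd (by omega), show n - 1 - (n - 1 - k) = k by omega]
  exact ord_case hodd hp (by rw [addOrderOf_neg]; exact hN) hf hpo hk hkf hko

end Pool.Agent.Run7.h631.SD
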