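import Mathlib
import Pool.Agent.Run7.h631.SD.Ord

set_option autoImplicit false

/-! Comparison by the residue of `k` modulo the order of `x`. -/

namespace Pool.Agent.Run7.h631.SD
open Finset

variable {n : ℕ} [NeZero n]

lemma cnt {k N c : ℕ} (hN : 0 < N) {P : ℕ → Prop} [DecidablePred P]
    (h : ∀ i, P i ↔ i ≡ c [MOD N]) :
    ∑ i ∈ range k, (if P i then (1 : ℤ) else 0) =
      ((k / N + if c % N < k % N then 1 else 0 : ℕ) : ℤ) := by
  rw [← Nat.count_modEq_card k hN c, Finset.sum_boole, Nat.count_eq_card_filter_range]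
  congr 2
  apply Finset.filter_congr
  intro i _
  exact h i

theorem cmp {p L N N1 t w k : ℕ} (hp : p.Prime) (hnL : n = p * L) (hk : 1 ≤ k)
    (hL : ∀ i, 1 ≤ i → i < k → Nat.gcd i n ∣ L) {x : ZMod n} (hN : addOrderOf x = N)
    (hNp : N = p * N1) (hw : w = 1 + N1 * t) (hcop : Nat.Coprime w N) (hwN : w < N)
    (hκ : (1 ≤ k % N ∧ k % N < w) ∨ (N - w ≤ k % N ∧ k % N < N - 1)) :
    ¬ IsOneDesign n k x := by
  have hN0 : 0 < N := by omega
  have hw1 : 1 ≤ w := by omega
  have hN1 : 1 < N := by omega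
  obtain ⟨v, -, hv⟩ := Nat.exists_mul_mod_eq_one_of_coprime hcop hN1
  have hv1 : (N : ℤ) ∣ (w : ℤ) * v - 1 := by
    have h1 : 1 ≡ w * v [MOD N] := by
      rw [Nat.ModEq, hv, Nat.mod_eq_of_lt hN1]
    have h2 := (Nat.modEq_iff_dvd).1 h1
    push_cast at h2
    exact h2
  have dd : ∀ z : ℤ, (z : ZMod n) * x = 0 ↔ (N : ℤ) ∣ z := by
    intro z
    rw [← hN, addOrderOf_dvd_iff_zsmul_eq_zero, zsmul_eq_mul]
  have hx0 : x ≠ 0 := by
    rintro rfl
    rw [addOrderOf_zero] at hN
    omega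
  have hxv0 : (v : ZMod n) * x ≠ 0 := by
    intro h
    have h1 := (dd (v : ℤ)).1 (by push_cast; exact h)
    have h2 : (N : ℤ) ∣ 1 := by
      have h3 : (1 : ℤ) = (w : ℤ) * v - ((w : ℤ) * v - 1) := by ring
      rw [h3]
      exact dvd_sub (h1.mul_left _) hv1
    have h4 := Int.le_of_dvd one_pos h2
    omega
  -- `v x = x + L s`
  obtain ⟨s, hs⟩ : ∃ s : ZMod n, (v : ZMod n) * x = x + (L : ZMod n) * s := by
    have h1 : (N1 : ℤ) ∣ (v : ℤ) - 1 := by
      have h2 : (N1 : ℤ) ∣ (w : ℤ) * v - 1 := by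
        refine Dvd.dvd.trans ?_ hv1
        rw [hNp]
        push_cast
        exact Dvd.intro_left _ rfl
      have h3 : (v : ℤ) - 1 = ((w : ℤ) * v - 1) - (N1 : ℤ) * (t * v) := by
        rw [hw]
        push_cast
        ring
      rw [h3]
      exact dvd_sub h2 (Dvd.intro _ rfl)
    obtain ⟨e, he⟩ := h1
    have hL0 : 0 < L := by
      rcases Nat.eq_zero_or_pos L with h | h
      · subst h
        rw [mul_zero] at hnL
        exact absurd hnL (NeZero.ne n)
      · exact h
    have h4 : ((p : ZMod n)) * ((N1 : ZMod n) * x) = 0 := by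
      have h5 := (dd (N : ℤ)).2 (dvd_refl _)
      rw [hNp] at h5
      push_cast at h5
      rw [← mul_assoc]
      exact h5
    set z := (N1 : ZMod n) * x with hz
    have h6 : n ∣ p * z.val := by
      rw [← ZMod.natCast_eq_zero_iff]
      push_cast
      rw [ZMod.natCast_zmod_val]
      exact h4
    have h7 : L ∣ z.val := by
      apply Nat.dvd_of_mul_dvd_mul_left hp.pos
      rw [← hnL]
      exact h6
    obtain ⟨d, hd⟩ := h7
    have h8 : z = (L : ZMod n) * (d : ZMod n) := by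
      have h9 := ZMod.natCast_zmod_val z
      rw [hd] at h9
      rw [← h9]
      push_cast
      ring
    refine ⟨(d : ZMod n) * ((e : ℤ) : ZMod n), ?_⟩
    have h10 : (v : ZMod n) - 1 = (N1 : ZMod n) * (e : ZMod n) := by
      have := congrArg (fun q : ℤ => (q : ZMod n)) he
      push_cast at this
      exact this
    linear_combination x * h10 + (e : ZMod n) * h8 - (e : ZMod n) * hz
  rcases hκ with ⟨hκ1, hκ2⟩ | ⟨hκ1, hκ2⟩
  · apply not_design (x := x) (L := L) (y := x) (y' := (v : ZMod n) * x) (s := s) hk hL hx0 hxv0 hs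
    rw [cnt (c := w - 1) hN0 (P := fun i => x = ((i + 1 : ℕ) : ZMod n) * ((v : ZMod n) * x)) ?_,
      cnt (c := 0) hN0 (P := fun i => x = ((i + 1 : ℕ) : ZMod n) * x) ?_]
    · rw [Nat.zero_mod, Nat.mod_eq_of_lt (show w - 1 < N by omega), if_neg (by omega),
        if_pos (by omega)]
      push_cast
      omega
    · intro i
      have h1 : (x = ((i + 1 : ℕ) : ZMod n) * x) ↔ (((i : ℕ) : ℤ) : ZMod n) * x = 0 := by
        push_cast
        constructor
        · intro h
          linear_combination -h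
        · intro h
          linear_combination -h
      rw [h1, dd, Int.natCast_dvd_natCast, Nat.modEq_zero_iff_dvd]
    · intro i
      have h1 : (x = ((i + 1 : ℕ) : ZMod n) * ((v : ZMod n) * x)) ↔
          ((((i : ℤ) + 1) * v - 1 : ℤ) : ZMod n) * x = 0 := by
        push_cast
        constructor
        · intro h
          linear_combination -h
        · intro h
          linear_combination -h
      have h2 : ((N : ℤ) ∣ ((i : ℤ) + 1) * v - 1) ↔ (N : ℤ) ∣ ((i : ℤ) + 1) - w := by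
        constructor
        · intro h
          have h3 : ((i : ℤ) + 1) - w = w * (((i : ℤ) + 1) * v - 1) -
              ((i : ℤ) + 1) * ((w : ℤ) * v - 1) := by ring
          rw [h3]
          exact dvd_sub (h.mul_left _) (hv1.mul_left _)
        · intro h
          have h3 : ((i : ℤ) + 1) * v - 1 = (((i : ℤ) + 1) - w) * v + ((w : ℤ) * v - 1) := by ring
          rw [h3]
          exact dvd_add (h.mul_right _) hv1
      rw [h1, dd, h2, Nat.modEq_iff_dvd, ← dvd_neg, Nat.cast_sub hw1]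
      have h4 : -(((i : ℤ) + 1) - w) = ((w : ℤ) - ((1 : ℕ) : ℤ)) - i := by push_cast; ring
      rw [h4]
  · apply not_design (x := x) (L := L) (y := -x) (y' := -((v : ZMod n) * x)) (s := -s) hk hL
      (neg_ne_zero.2 hx0) (neg_ne_zero.2 hxv0) (by rw [hs]; ring)
    rw [cnt (c := N - w - 1) hN0 (P := fun i => x = ((i + 1 : ℕ) : ZMod n) * (-((v : ZMod n) * x))) ?_,
      cnt (c := N - 2) hN0 (P := fun i => x = ((i + 1 : ℕ) : ZMod n) * (-x)) ?_]
    · rw [Nat.mod_eq_of_lt (show N - w - 1 < N by omega), Nat.mod_eq_of_lt (show N - 2 < N by omega),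
        if_pos (by omega), if_neg (by omega)]
      push_cast
      omega
    · intro i
      have h1 : (x = ((i + 1 : ℕ) : ZMod n) * (-x)) ↔ (((i : ℤ) + 2 : ℤ) : ZMod n) * x = 0 := by
        push_cast
        constructor
        · intro h
          linear_combination h
        · intro h
          linear_combination h
      rw [h1, dd, Nat.modEq_iff_dvd, ← dvd_neg, Nat.cast_sub (by omega : 2 ≤ N)]
      have h4 : ((N : ℤ) - ((2 : ℕ) : ℤ)) - i = N + -((i : ℤ) + 2) := by push_cast; ring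
      rw [h4, dvd_add_right (dvd_refl _)]
    · intro i
      have h1 : (x = ((i + 1 : ℕ) : ZMod n) * (-((v : ZMod n) * x))) ↔
          ((((i : ℤ) + 1) * v + 1 : ℤ) : ZMod n) * x = 0 := by
        push_cast
        constructor
        · intro h
          linear_combination h
        · intro h
          linear_combination h
      have h2 : ((N : ℤ) ∣ ((i : ℤ) + 1) * v + 1) ↔ (N : ℤ) ∣ ((i : ℤ) + 1) + w := by
        constructor
        · intro h
          have h3 : ((i : ℤ) + 1) + w = w * (((i : ℤ) + 1) * v + 1) -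
              ((i : ℤ) + 1) * ((w : ℤ) * v - 1) := by ring
          rw [h3]
          exact dvd_sub (h.mul_left _) (hv1.mul_left _)
        · intro h
          have h3 : ((i : ℤ) + 1) * v + 1 = (((i : ℤ) + 1) + w) * v - ((w : ℤ) * v - 1) := by ring
          rw [h3]
          exact dvd_sub (h.mul_right _) hv1
      rw [h1, dd, h2, Nat.modEq_iff_dvd, ← dvd_neg, Nat.cast_sub (by omega : 1 ≤ N - w),
        Nat.cast_sub hwN.le]
      have h4 : ((N : ℤ) - w - ((1 : ℕ) : ℤ)) - i = N + -(((i : ℤ) + 1) + w) := by push_cast; ring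
      rw [h4, dvd_add_right (dvd_refl _)]

/-- prime powers: `x ≠ 0` needs `k ≡ 0, -1` modulo the order of `x` -/
theorem pow_case {p a k : ℕ} (hodd : Odd n) (hp : p.Prime) (hn : n = p ^ a) (hk : 1 ≤ k)
    (hkn : k ≤ n - 1) {x : ZMod n} (hx : x ≠ 0) (h0 : ¬ addOrderOf x ∣ k)
    (h1 : ¬ addOrderOf x ∣ k + 1) : ¬ IsOneDesign n k x := by
  have hNn : addOrderOf x ∣ p ^ a := by
    rw [← hn]
    apply addOrderOf_dvd_of_nsmul_eq_zero
    rw [nsmul_eq_mul, ZMod.natCast_self, zero_mul]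
  obtain ⟨f, hf, hN⟩ := (Nat.dvd_prime_pow hp).1 hNn
  have hf0 : f ≠ 0 := by
    rintro rfl
    rw [pow_zero, AddMonoid.addOrderOf_eq_one_iff] at hN
    exact hx hN
  obtain ⟨g, rfl⟩ : ∃ g, f = g + 1 := ⟨f - 1, by omega⟩
  obtain ⟨b, rfl⟩ : ∃ b, a = b + 1 := ⟨a - 1, by omega⟩
  have hpn : p ∣ n := by
    rw [hn]
    exact dvd_pow_self p (by omega)
  have hpo2 : Odd p := Odd.of_dvd_nat hodd hpn
  have hp2 := hp.two_le
  have hp3 : 3 ≤ p := by
    obtain ⟨l, hl⟩ := hpo2
    omega
  have hpg : 0 < p ^ g := pow_pos hp.pos g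
  have hNe : p ^ (g + 1) = p * p ^ g := by rw [pow_succ]; ring
  rw [hN] at h0 h1
  have hk0 : k % p ^ (g + 1) ≠ 0 := fun h => h0 (Nat.dvd_of_mod_eq_zero h)
  have hlt := Nat.mod_lt k (show 0 < p ^ (g + 1) by positivity)
  have hk1 : k % p ^ (g + 1) ≠ p ^ (g + 1) - 1 := by
    intro h
    apply h1
    have h2 := Nat.div_add_mod k (p ^ (g + 1))
    exact ⟨k / p ^ (g + 1) + 1, by rw [Nat.mul_add, Nat.mul_one]; omega⟩
  have hL : ∀ i, 1 ≤ i → i < k → Nat.gcd i n ∣ p ^ b := by
    intro i hi1 hi2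
    have hgi : Nat.gcd i n ≤ i := Nat.gcd_le_left n hi1
    have hgn : Nat.gcd i n ∣ p ^ (b + 1) := hn ▸ Nat.gcd_dvd_right i n
    have h3 := dvd_pred hp hgn (by omega)
    rwa [Nat.add_sub_cancel] at h3
  rcases Nat.eq_zero_or_pos g with hg | hg
  · subst hg
    rw [zero_add, pow_one] at hN hk0 hk1 hlt
    refine cmp (N1 := 1) (t := p - 2) (w := p - 1) hp (by rw [hn, pow_succ]; ring) hk hL hN
      (by rw [mul_one]) (by omega) ?_ (by omega) (Or.inl ⟨by omega, by omega⟩)
    have h3 : Nat.Coprime (p - 1) (p - 1 + 1) := by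
      rw [Nat.coprime_self_add_right]
      exact Nat.coprime_one_right _
    rwa [Nat.sub_add_cancel hp.pos] at h3
  · have h4 : p ^ g * (p - 1) + p ^ g = p ^ (g + 1) := by
      obtain ⟨l, rfl⟩ : ∃ l, p = l + 1 := ⟨p - 1, by omega⟩
      rw [Nat.add_sub_cancel, pow_succ]
      ring
    have h5 : 2 ≤ p ^ g := hp2.trans (Nat.le_self_pow (by omega) p)
    have h6 : p ^ g * 2 ≤ p ^ g * (p - 1) := Nat.mul_le_mul_left _ (by omega)
    refine cmp (N1 := p ^ g) (t := p - 1) (w := 1 + p ^ g * (p - 1)) hp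
      (by rw [hn, pow_succ]; ring) hk hL hN hNe rfl ?_ (by omega) ?_
    · apply Nat.Coprime.pow_right
      rw [Nat.coprime_comm, Nat.Prime.coprime_iff_not_dvd hp]
      intro h
      have h7 : p ∣ p ^ g * (p - 1) := (dvd_pow_self p (by omega)).mul_right _
      exact hp.one_lt.ne' (Nat.dvd_one.1 ((Nat.dvd_add_left h7).1 h))
    · by_cases h8 : k % p ^ (g + 1) < 1 + p ^ g * (p - 1)
      · exact Or.inl ⟨by omega, h8⟩
      · exact Or.inr ⟨by omega, by omega⟩

end Pool.Agent.Run7.h631.SD
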