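import Mathlib
import Pool.Agent.Run7.h631.SD.Cmp

set_option autoImplicit false

/-! General odd `n`, `x ≠ 0`. -/

namespace Pool.Agent.Run7.h631.SD
open Finset

variable {n : ℕ} [NeZero n]

theorem gen_case {p b m k N1 : ℕ} (hodd : Odd n) (hp : p.Prime) (hn : n = p ^ (b + 1) * m)
    {x : ZMod n} (hN : addOrderOf x = p * N1) (hk : 1 ≤ k) (hka : k ≤ p ^ (b + 1))
    (h1 : 1 ≤ k % (p * N1)) (h2 : k % (p * N1) ≤ (p - 2) * N1) : ¬ IsOneDesign n k x := by
  have hn0 : n ≠ 0 := NeZero.ne n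
  have hm0 : 0 < m := by
    rcases Nat.eq_zero_or_pos m with h | h
    · subst h; rw [mul_zero] at hn; exact absurd hn hn0
    · exact h
  have hp2 := hp.two_le
  have hpn : p ∣ n := by
    rw [hn]
    exact (dvd_pow_self p (by omega)).mul_right m
  have hpo2 : Odd p := Odd.of_dvd_nat hodd hpn
  have hp3 : 3 ≤ p := by
    obtain ⟨l, hl⟩ := hpo2
    omega
  have hN10 : 0 < N1 := by
    rcases Nat.eq_zero_or_pos N1 with h | h
    · subst h
      have h3 := addOrderOf_pos x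
      rw [hN, mul_zero] at h3
      exact absurd h3 (lt_irrefl _)
    · exact h
  obtain ⟨t', ht1, ht2, ht3⟩ : ∃ t', t' < p ∧ p ≤ t' + 2 ∧ ¬ p ∣ 1 + N1 * t' := by
    by_cases h : p ∣ 1 + N1 * (p - 1)
    · refine ⟨p - 2, by omega, by omega, ?_⟩
      intro h2
      have h3 : 1 + N1 * (p - 1) = (1 + N1 * (p - 2)) + N1 := by
        obtain ⟨l, rfl⟩ : ∃ l, p = l + 2 := ⟨p - 2, by omega⟩
        rw [Nat.add_sub_cancel, show l + 2 - 1 = l + 1 by omega]
        ring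
      rw [h3] at h
      have h4 : p ∣ N1 := (Nat.dvd_add_right h2).1 h
      have h5 : p ∣ N1 * (p - 2) := h4.mul_right _
      exact hp.one_lt.ne' (Nat.dvd_one.1 ((Nat.dvd_add_left h5).1 h2))
    · exact ⟨p - 1, by omega, by omega, h⟩
  have hcop : Nat.Coprime (1 + N1 * t') (p * N1) := by
    apply Nat.Coprime.mul_right
    · exact ((Nat.Prime.coprime_iff_not_dvd hp).2 ht3).symm
    · rw [mul_comm N1 t', Nat.coprime_add_mul_right_left]
      exact Nat.coprime_one_left _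
  have hle : 1 + N1 * t' ≤ p * N1 := by
    have h3 : N1 * t' ≤ N1 * (p - 1) := Nat.mul_le_mul_left _ (by omega)
    have h4 : N1 * (p - 1) + N1 = p * N1 := by
      obtain ⟨l, rfl⟩ : ∃ l, p = l + 1 := ⟨p - 1, by omega⟩
      rw [Nat.add_sub_cancel]
      ring
    omega
  have hne : 1 + N1 * t' ≠ p * N1 := by
    intro h
    apply ht3
    rw [h]
    exact Dvd.intro _ rfl
  refine cmp (L := p ^ b * m) (N1 := N1) (t := t') (w := 1 + N1 * t') hp
    (by rw [hn, pow_succ]; ring) hk ?_ hN rfl rfl hcop (by omega) (Or.inl ⟨h1, ?_⟩)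
  · intro i hi1 hi2
    have hgi : Nat.gcd i n ≤ i := Nat.gcd_le_left n hi1
    have hgn : Nat.gcd i n ∣ p ^ (b + 1) * m := hn ▸ Nat.gcd_dvd_right i n
    obtain ⟨g1, g2, hg1, hg2, hg⟩ := (Nat.dvd_mul).1 hgn
    have hg2p : 0 < g2 := Nat.pos_of_dvd_of_pos hg2 hm0
    have hlt : g1 < p ^ (b + 1) := by
      have : g1 ≤ g1 * g2 := Nat.le_mul_of_pos_right g1 hg2p
      omega
    have h3 := dvd_pred hp hg1 hlt
    rw [Nat.add_sub_cancel] at h3
    rw [← hg]
    exact mul_dvd_mul h3 hg2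
  · have h3 : (p - 2) * N1 ≤ t' * N1 := Nat.mul_le_mul_right _ (by omega)
    rw [mul_comm t' N1] at h3
    omega

theorem gen_both {p a m k N1 : ℕ} (hodd : Odd n) (hp : p.Prime) (hn : n = p ^ a * m)
    (ha : 1 ≤ a) {x : ZMod n} (hN : addOrderOf x = p * N1) (hk : 1 ≤ k) (hkn : k ≤ n - 1)
    (hka : k ≤ p ^ a) (h1 : 1 ≤ k % (p * N1)) (h2 : k % (p * N1) ≤ (p - 2) * N1) :
    ¬ IsOneDesign n k x ∧ ¬ IsOneDesign n (n - 1 - k) x := by
  obtain ⟨b, rfl⟩ : ∃ b, a = b + 1 := ⟨a - 1, by omega⟩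
  refine ⟨gen_case hodd hp hn hN hk hka h1 h2, ?_⟩
  rw [design_compl_iff hodd (by omega), show n - 1 - (n - 1 - k) = k by omega]
  exact gen_case hodd hp hn (by rw [addOrderOf_neg]; exact hN) hk hka h1 h2

end Pool.Agent.Run7.h631.SD
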